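import Pool.Agent.V11253.WR.Glue
set_option autoImplicit false
namespace Pool.Agent.V11253.WR

open Finset

/-- same orbit under the automorphism group -/
def Orb {W : Type*} (H : SimpleGraph W) (u v : W) : Prop := ∃ φ : H ≃g H, φ u = v

theorem orb_eqv {W : Type*} (H : SimpleGraph W) : Equivalence (Orb H) := by
  refine ⟨fun u => ⟨RelIso.refl _, rfl⟩, ?_, ?_⟩
  · rintro u v ⟨φ, rfl⟩
    exact ⟨φ.symm, φ.symm_apply_apply u⟩
  · rintro u v w ⟨φ, rfl⟩ ⟨ψ, rfl⟩
    exact ⟨φ.trans ψ, rfl⟩

theorem orb_E {W : Type*} (H : SimpleGraph W) (u u' w : W) (h : Orb H u u') (hw : H.Adj u w) :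
    ∃ w', Orb H w w' ∧ H.Adj u' w' := by
  obtain ⟨φ, rfl⟩ := h
  exact ⟨φ w, ⟨φ, rfl⟩, φ.map_rel_iff.2 hw⟩

theorem orb_dg {W : Type*} [Fintype W] (H : SimpleGraph W) (u u' : W) (h : Orb H u u') :
    (cl H.Adj u).card = (cl H.Adj u').card := by
  classical
  obtain ⟨φ, rfl⟩ := h
  refine Finset.card_bij (fun w _ => φ w) ?_ ?_ ?_
  · intro w hw
    rw [mem_cl] at hw ⊢
    exact φ.map_rel_iff.2 hw
  · intro a _ b _ hab
    exact φ.injective hab
  · intro b hb
    rw [mem_cl] at hb
    refine ⟨φ.symm b, ?_, φ.apply_symm_apply b⟩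
    rw [mem_cl]
    rw [← φ.map_rel_iff, φ.apply_symm_apply]
    exact hb

/-- `c` is a proper edge colouring of `X`. -/
def PropCol {V : Type*} {κ : Type*} (X : SimpleGraph V) (c : Sym2 V → κ) : Prop :=
  ∀ e ∈ X.edgeSet, ∀ f ∈ X.edgeSet, e ≠ f → (∃ v, v ∈ e ∧ v ∈ f) → c e ≠ c f

theorem propcol_iff {V : Type*} {κ : Type*} (X : SimpleGraph V) (c : Sym2 V → κ) :
    PropCol X c ↔ ∀ p q q', X.Adj p q → X.Adj p q' → c s(p, q) = c s(p, q') → q = q' := by
  constructor
  · intro h p q q' hq hq' he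
    by_contra hne
    refine h s(p, q) hq s(p, q') hq' ?_ ⟨p, by simp, by simp⟩ he
    intro heq
    rw [Sym2.eq_iff] at heq
    rcases heq with ⟨_, h1⟩ | ⟨h1, h2⟩
    · exact hne h1
    · exact hne (h2.trans h1)
  · intro h e he f hf hne ⟨v, hve, hvf⟩ hc
    obtain ⟨q, rfl⟩ := hve
    obtain ⟨q', rfl⟩ := hvf
    exact hne (by rw [h v q q' he hf hc])

/-- the wreath product -/
def Wr {V W : Type*} (G : SimpleGraph V) (G' : SimpleGraph W) : SimpleGraph (V × W) :=
  SimpleGraph.fromRel (fun p q : V × W =>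
            (p.1 = q.1 ∧ G'.Adj p.2 q.2) ∨
            (G.Adj p.1 q.1 ∧ ∃ φ : G' ≃g G', φ p.2 = q.2))

theorem Wr_adj {V W : Type*} (G : SimpleGraph V) (G' : SimpleGraph W) (p q : V × W) :
    (Wr G G').Adj p q ↔ (p.1 = q.1 ∧ G'.Adj p.2 q.2) ∨ (G.Adj p.1 q.1 ∧ Orb G' p.2 q.2) := by
  unfold Wr
  rw [SimpleGraph.fromRel_adj]
  constructor
  · rintro ⟨_, (h | h) | (h | h)⟩
    · exact Or.inl h
    · exact Or.inr h
    · exact Or.inl ⟨h.1.symm, h.2.symm⟩
    · exact Or.inr ⟨h.1.symm, (orb_eqv G').symm h.2⟩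
  · intro h
    refine ⟨?_, Or.inl h⟩
    rintro rfl
    rcases h with h | h
    · exact G'.irrefl h.2
    · exact G.irrefl h.1

/-- Colouring the wreath product. -/
theorem wr_col {V W : Type*} [Fintype V] [Fintype W] (G : SimpleGraph V) (G' : SimpleGraph W)
    (r D : ℕ) (hr : 1 ≤ r) (g : Sym2 V → Fin r) (hg : PropCol G g)
    (hD : ∀ u, (cl G'.Adj u).card + r * (cl (Orb G') u).card ≤ D) :
    ∃ c : Sym2 (V × W) → ℕ, (∀ e ∈ (Wr G G').edgeSet, c e < D) ∧ PropCol (Wr G G') c := by
  classical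
  obtain ⟨φ, ψ, hT⟩ := glue G' (Orb G') (orb_eqv G') (orb_E G') (orb_dg G') r D hr hD
  let e := Fintype.equivFin V
  let sg : V → V → Bool := fun x y => decide (e x < e y)
  have hsg : ∀ x y, x ≠ y → sg y x = !(sg x y) := by
    intro x y hne
    have h1 : e x ≠ e y := fun h => hne (e.injective h)
    simp only [sg]
    rcases lt_trichotomy (e x) (e y) with h | h | h
    · have h2 : ¬ e y < e x := not_lt.2 h.le
      simp [h, h2]
    · exact absurd h h1
    · have h2 : ¬ e x < e y := not_lt.2 h.le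
      simp [h, h2]
  have hori : ∀ c b (u v : W), ori ψ c (!b) v u = ori ψ c b u v := by
    intro c b u v
    unfold ori
    cases b <;> simp
  let col : V × W → V × W → ℕ := fun p q =>
    if (Wr G G').Adj p q then
      (if p.1 = q.1 then φ p.2 q.2 else ori ψ (g s(p.1, q.1)) (sg p.1 q.1) p.2 q.2) else 0
  have hcs : ∀ p q, col p q = col q p := by
    intro p q
    by_cases h : (Wr G G').Adj p q
    · simp only [col, if_pos h, if_pos h.symm]
      by_cases h1 : p.1 = q.1
      · rw [if_pos h1, if_pos h1.symm]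
        rcases (Wr_adj G G' p q).1 h with h2 | h2
        · exact hT.fsymm _ (Set.mem_univ _) _ h2.2
        · rw [h1] at h2
          exact absurd h2.1 G.irrefl
      · rw [if_neg h1, if_neg (fun h => h1 h.symm), hsg _ _ h1, hori, Sym2.eq_swap]
    · simp only [col, if_neg h, if_neg (fun h' : (Wr G G').Adj q p => h h'.symm)]
  refine ⟨fun x => Sym2.lift ⟨col, hcs⟩ x, ?_, ?_⟩
  · intro x hx
    induction x using Sym2.ind with
    | _ p q =>
      have h : (Wr G G').Adj p q := hx
      simp only [Sym2.lift_mk, col, if_pos h]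
      rcases (Wr_adj G G' p q).1 h with h2 | h2
      · rw [if_pos h2.1]
        exact hT.flt _ (Set.mem_univ _) _ h2.2
      · rw [if_neg h2.1.ne]
        unfold ori
        split_ifs
        · exact hT.plt _ (Set.mem_univ _) _ h2.2 _ (g s(p.1, q.1)).2
        · exact hT.plt _ (Set.mem_univ _) _ ((orb_eqv G').symm h2.2) _ (g s(p.1, q.1)).2
  · rw [propcol_iff]
    intro p q q' h h' he
    simp only [Sym2.lift_mk, col, if_pos h, if_pos h'] at he
    have hg' := (propcol_iff G g).1 hg
    rcases (Wr_adj G G' p q).1 h with h2 | h2 <;> rcases (Wr_adj G G' p q').1 h' with h3 | h3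
    · rw [if_pos h2.1, if_pos h3.1] at he
      have := hT.finj _ (Set.mem_univ _) _ _ h2.2 h3.2 he
      exact Prod.ext (h2.1.symm.trans h3.1) this
    · rw [if_pos h2.1, if_neg h3.1.ne] at he
      exact absurd he (hT.mix _ (Set.mem_univ _) _ _ h2.2 h3.2 _ (g s(p.1, q'.1)).2 _)
    · rw [if_neg h2.1.ne, if_pos h3.1] at he
      exact absurd he.symm (hT.mix _ (Set.mem_univ _) _ _ h3.2 h2.2 _ (g s(p.1, q.1)).2 _)
    · rw [if_neg h2.1.ne, if_neg h3.1.ne] at he
      have hy : (g s(p.1, q.1) : ℕ) = g s(p.1, q'.1) → q.1 = q'.1 := fun hh =>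
        hg' p.1 q.1 q'.1 h2.1 h3.1 (Fin.ext hh)
      obtain ⟨h4, h5⟩ := hT.cross _ (Set.mem_univ _) _ _ h2.2 h3.2 _ (g s(p.1, q.1)).2 _
        (g s(p.1, q'.1)).2 _ _ (fun hh => by rw [hy hh]) he
      exact Prod.ext (hy h4) h5

open Classical in
theorem deg_lower {V : Type*} [Fintype V] (X : SimpleGraph V) (k : ℕ) (c : Sym2 V → Fin k)
    (hc : PropCol X c) : X.maxDegree ≤ k := by
  by_cases hV : Nonempty V
  · obtain ⟨v, hv⟩ := X.exists_maximal_degree_vertex
    rw [hv, ← SimpleGraph.card_neighborFinset_eq_degree]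
    have h1 := (propcol_iff X c).1 hc
    have h2 : (X.neighborFinset v).card ≤ (univ : Finset (Fin k)).card := by
      apply Finset.card_le_card_of_injOn (fun w => c s(v, w))
      · intro w _
        exact Finset.mem_coe.2 (mem_univ _)
      · intro a ha b hb hab
        have ha' : X.Adj v a := by simpa using ha
        have hb' : X.Adj v b := by simpa using hb
        exact h1 v a b ha' hb' hab
    simpa using h2
  · rw [not_nonempty_iff] at hV
    rw [X.maxDegree_of_isEmpty]
    exact Nat.zero_le _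

open Classical in
theorem main {V W : Type*} [Fintype V] [Fintype W] (G : SimpleGraph V) (G' : SimpleGraph W)
    (hne : G.edgeSet.Nonempty)
    (hG : sInf {k : ℕ | ∃ c : Sym2 V → Fin k, PropCol G c} = G.maxDegree) :
    sInf {k : ℕ | ∃ c : Sym2 (V × W) → Fin k, PropCol (Wr G G') c} = (Wr G G').maxDegree := by
  set D := (Wr G G').maxDegree with hDdef
  have hmem : D ∈ {k : ℕ | ∃ c : Sym2 (V × W) → Fin k, PropCol (Wr G G') c} := by
    by_cases hW : Nonempty W
    swap
    · rw [not_nonempty_iff] at hW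
      have hE : IsEmpty (Sym2 (V × W)) := by
        constructor
        intro x
        induction x using Sym2.ind with
        | _ p q => exact hW.elim p.2
      exact ⟨fun x => (hE.false x).elim, fun x => (hE.false x).elim⟩
    have hgne : {k : ℕ | ∃ c : Sym2 V → Fin k, PropCol G c}.Nonempty := by
      refine ⟨Fintype.card (Sym2 V), Fintype.equivFin (Sym2 V), ?_⟩
      intro e _ f _ hef _ h
      exact hef ((Fintype.equivFin (Sym2 V)).injective h)
    have hgm := Nat.sInf_mem hgne
    rw [hG] at hgm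
    obtain ⟨g, hg⟩ := hgm
    obtain ⟨e0, he0⟩ := hne
    obtain ⟨x0, y0, hxy⟩ : ∃ x y, G.Adj x y := by
      induction e0 using Sym2.ind with
      | _ x y => exact ⟨x, y, he0⟩
    have hVne : Nonempty V := ⟨x0⟩
    have hr : 1 ≤ G.maxDegree := by
      have h1 := G.degree_le_maxDegree x0
      have h2 : 0 < G.degree x0 := by
        rw [← SimpleGraph.card_neighborFinset_eq_degree, Finset.card_pos]
        exact ⟨y0, by simpa using hxy⟩
      omega
    obtain ⟨x, hx⟩ := G.exists_maximal_degree_vertex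
    have hD : ∀ u : W, (cl G'.Adj u).card + G.maxDegree * (cl (Orb G') u).card ≤ D := by
      intro u
      have h1 := (Wr G G').degree_le_maxDegree (x, u)
      refine le_trans ?_ h1
      rw [← SimpleGraph.card_neighborFinset_eq_degree, hx,
        ← SimpleGraph.card_neighborFinset_eq_degree, ← Finset.card_product]
      have h2 : (cl G'.Adj u).card = ((cl G'.Adj u).image (fun w => (x, w))).card := by
        rw [Finset.card_image_of_injective]
        intro a b hab
        exact (Prod.ext_iff.1 hab).2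
      rw [h2, ← Finset.card_union_of_disjoint]
      · apply Finset.card_le_card
        intro q hq
        rw [SimpleGraph.mem_neighborFinset, Wr_adj]
        rw [mem_union, mem_image, mem_product] at hq
        rcases hq with ⟨w, hw, rfl⟩ | hq
        · exact Or.inl ⟨rfl, (mem_cl _ _ _).1 hw⟩
        · exact Or.inr ⟨by simpa using hq.1, (mem_cl _ _ _).1 hq.2⟩
      · rw [Finset.disjoint_left]
        intro q hq hq'
        rw [mem_image] at hq
        obtain ⟨w, _, rfl⟩ := hq
        rw [mem_product] at hq'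
        have := hq'.1
        simp at this
    obtain ⟨c, hc1, hc2⟩ := wr_col G G' G.maxDegree D hr g hg hD
    obtain ⟨w0⟩ := hW
    have hDpos : 0 < D := by
      have h1 := hD w0
      have h2 : 0 < (cl (Orb G') w0).card :=
        Finset.card_pos.2 ⟨w0, (mem_cl _ _ _).2 ((orb_eqv G').refl w0)⟩
      have h3 : 0 < G.maxDegree * (cl (Orb G') w0).card := Nat.mul_pos hr h2
      omega
    refine ⟨fun e => if h : c e < D then ⟨c e, h⟩ else ⟨0, hDpos⟩, ?_⟩
    intro e he f hf hef hv h
    have h1 := hc1 e he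
    have h2 := hc1 f hf
    simp only [dif_pos h1, dif_pos h2] at h
    exact hc2 e he f hf hef hv (congrArg Fin.val h)
  apply le_antisymm
  · exact Nat.sInf_le hmem
  · apply le_csInf ⟨D, hmem⟩
    rintro k ⟨c, hc⟩
    exact deg_lower (Wr G G') k c hc

end Pool.Agent.V11253.WR
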