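import Pool.Agent.MPd14d18.Kempe
set_option autoImplicit false
namespace Pool.Agent.V11253.WR

open Finset
open Pool.Agent.MPd14d18 (mu mu_congr mu_erase mu_eq_card mu_comm add_edge kempe closed_exists)

section core

variable {W : Type*} [Fintype W] [DecidableEq W]

theorem exists_unique_colour (L : Finset ℕ) (m : ℕ → W → W) (hm : ∀ c v, m c (m c v) = v)
    (U : Finset W) (s : W → ℕ) (hodd : Odd (∑ u ∈ U, s u)) (hcard : ∑ u ∈ U, s u < 2 * L.card)
    (hmiss : ∀ u ∈ U, s u ≤ (L.filter (fun c => m c u = u)).card) :
    ∃ (m' : ℕ → W → W) (A : W → Finset ℕ), (∀ c v, m' c (m' c v) = v) ∧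
      (∀ c, c ∉ L → m' c = m c) ∧ (∀ u w, mu L m' u w = mu L m u w) ∧
      (∀ u ∈ U, A u ⊆ L.filter (fun c => m' c u = u)) ∧
      (∀ u ∈ U, (A u).card = s u) ∧
      ∃ i ∈ L, (U.filter (fun u => i ∈ A u)).card = 1 := by
  classical
  let Valid : (ℕ → W → W) → (W → Finset ℕ) → Prop := fun m' A =>
    (∀ c v, m' c (m' c v) = v) ∧
      (∀ c, c ∉ L → m' c = m c) ∧ (∀ u w, mu L m' u w = mu L m u w) ∧
      (∀ u ∈ U, A u ⊆ L.filter (fun c => m' c u = u)) ∧
      (∀ u ∈ U, (A u).card = s u)
  let x : (W → Finset ℕ) → ℕ → ℕ := fun A i => (U.filter (fun u => i ∈ A u)).card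
  let Φ : (W → Finset ℕ) → ℕ := fun A => ∑ i ∈ L, (x A i) ^ 2
  have hex : ∃ n, ∃ m' A, Valid m' A ∧ Φ A = n := by
    have : ∀ u : W, ∃ B : Finset ℕ, u ∈ U → B ⊆ L.filter (fun c => m c u = u) ∧
        B.card = s u := by
      intro u
      by_cases hu : u ∈ U
      · obtain ⟨B, hB1, hB2⟩ := Finset.exists_subset_card_eq (hmiss u hu)
        exact ⟨B, fun _ => ⟨hB1, hB2⟩⟩
      · exact ⟨∅, fun h => absurd h hu⟩
    choose A hA using this
    exact ⟨Φ A, m, A, ⟨hm, fun _ _ => rfl, fun _ _ => rfl, fun u hu => (hA u hu).1,
      fun u hu => (hA u hu).2⟩, rfl⟩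
  obtain ⟨m', A, hV, hΦ⟩ := Nat.find_spec hex
  have hmin : ∀ m'' A'', Valid m'' A'' → Φ A ≤ Φ A'' := by
    intro m'' A'' h
    rw [hΦ]
    exact Nat.find_min' hex ⟨m'', A'', h, rfl⟩
  obtain ⟨hinv, hout, hmul, hAs, hAc⟩ := hV
  refine ⟨m', A, hinv, hout, hmul, hAs, hAc, ?_⟩
  -- claim 1
  have claim1 : ∀ i ∈ L, ∀ j ∈ L, x A i ≤ x A j + 2 := by
    intro i hi j hj
    by_contra hcon
    rw [not_le] at hcon
    have hij : i ≠ j := by
      rintro rfl; omega
    let X : Finset W := U.filter (fun u => i ∈ A u)
    let Y : Finset W := U.filter (fun u => j ∈ A u)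
    have hXc : X.card = x A i := rfl
    have hYc : Y.card = x A j := rfl
    have hXfix : ∀ w ∈ X, m' i w = w := by
      intro w hw
      rw [mem_filter] at hw
      have := hAs w hw.1 hw.2
      rw [mem_filter] at this
      exact this.2
    obtain ⟨S, hSi, hSj, hlt, hle⟩ := closed_exists (m' i) (m' j) (hinv i) (hinv j) X Y hXfix
      _ univ rfl (fun w _ => mem_univ _) (fun w _ => mem_univ _)
      (by rw [Finset.univ_inter, Finset.univ_inter]; omega)
    let m'' : ℕ → W → W := fun c v => if v ∈ S then m' (Equiv.swap i j c) v else m' c v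
    obtain ⟨k1, k2, k3⟩ := kempe L m' hinv i j hi hj S hSi hSj m'' (fun _ _ => rfl)
    let A'' : W → Finset ℕ := fun u =>
      if u ∈ S then (A u).map (Equiv.swap i j).toEmbedding else A u
    have hmemA : ∀ u c, c ∈ A'' u ↔ if u ∈ S then Equiv.swap i j c ∈ A u else c ∈ A u := by
      intro u c
      by_cases hu : u ∈ S
      · simp only [A'', hu, if_true]
        rw [Finset.mem_map_equiv, Equiv.symm_swap]
      · simp only [A'', hu, if_false]
    have hV'' : Valid m'' A'' := by
      refine ⟨k1, fun c hc => (k2 c hc).trans (hout c hc), fun u w => (k3 u w).trans (hmul u w),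
        ?_, ?_⟩
      · intro u hu c hc
        rw [hmemA] at hc
        by_cases huS : u ∈ S
        · rw [if_pos huS] at hc
          have h1 := hAs u hu hc
          rw [mem_filter] at h1 ⊢
          refine ⟨?_, ?_⟩
          · by_cases hci : c = i
            · rw [hci]; exact hi
            · by_cases hcj : c = j
              · rw [hcj]; exact hj
              · rw [Equiv.swap_apply_of_ne_of_ne hci hcj] at h1; exact h1.1
          · simp only [m'', huS, if_true]
            exact h1.2
        · rw [if_neg huS] at hc
          have h1 := hAs u hu hc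
          rw [mem_filter] at h1 ⊢
          refine ⟨h1.1, ?_⟩
          simp only [m'', huS, if_false]
          exact h1.2
      · intro u hu
        by_cases huS : u ∈ S
        · simp only [A'', huS, if_true, Finset.card_map]
          exact hAc u hu
        · simp only [A'', huS, if_false]
          exact hAc u hu
    have hxother : ∀ c, c ≠ i → c ≠ j → x A'' c = x A c := by
      intro c hci hcj
      simp only [x]
      congr 1
      apply Finset.filter_congr
      intro u _
      rw [hmemA, Equiv.swap_apply_of_ne_of_ne hci hcj]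
      simp
    have hxi : x A'' i = (S ∩ Y).card + (X \ S).card := by
      simp only [x]
      rw [← Finset.card_union_of_disjoint]
      · congr 1
        ext u
        simp only [mem_filter, mem_union, mem_inter, mem_sdiff, X, Y, hmemA,
          Equiv.swap_apply_left]
        by_cases huS : u ∈ S
        · simp [huS]
        · simp [huS]
      · rw [Finset.disjoint_left]
        intro u hu hu'
        rw [mem_inter] at hu
        rw [mem_sdiff] at hu'
        exact hu'.2 hu.1
    have hxj : x A'' j = (S ∩ X).card + (Y \ S).card := by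
      simp only [x]
      rw [← Finset.card_union_of_disjoint]
      · congr 1
        ext u
        simp only [mem_filter, mem_union, mem_inter, mem_sdiff, X, Y, hmemA,
          Equiv.swap_apply_right]
        by_cases huS : u ∈ S
        · simp [huS]
        · simp [huS]
      · rw [Finset.disjoint_left]
        intro u hu hu'
        rw [mem_inter] at hu
        rw [mem_sdiff] at hu'
        exact hu'.2 hu.1
    have hXs : X.card = (S ∩ X).card + (X \ S).card := by
      rw [Finset.inter_comm, Finset.card_inter_add_card_sdiff]
    have hYs : Y.card = (S ∩ Y).card + (Y \ S).card := by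
      rw [Finset.inter_comm, Finset.card_inter_add_card_sdiff]
    have hlt' : Φ A'' < Φ A := by
      simp only [Φ]
      rw [← Finset.add_sum_erase L (fun c => (x A'' c) ^ 2) hi,
        ← Finset.add_sum_erase L (fun c => (x A c) ^ 2) hi,
        ← Finset.add_sum_erase (L.erase i) (fun c => (x A'' c) ^ 2)
          (mem_erase.mpr ⟨hij.symm, hj⟩),
        ← Finset.add_sum_erase (L.erase i) (fun c => (x A c) ^ 2)
          (mem_erase.mpr ⟨hij.symm, hj⟩)]
      have e : ∑ c ∈ (L.erase i).erase j, (x A'' c) ^ 2 =
          ∑ c ∈ (L.erase i).erase j, (x A c) ^ 2 := by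
        refine Finset.sum_congr rfl fun c hc => ?_
        rw [mem_erase, mem_erase] at hc
        rw [hxother c hc.2.1 hc.1]
      rw [e]
      have h1 : (x A'' i) ^ 2 + (x A'' j) ^ 2 < (x A i) ^ 2 + (x A j) ^ 2 := by
        rw [hxi, hxj, ← hXc, ← hYc, hXs, hYs]
        rw [← hXc, ← hYc, hXs, hYs] at hcon
        have h2 : (S ∩ X).card = (S ∩ Y).card + 1 ∨ (S ∩ X).card = (S ∩ Y).card + 2 := by
          omega
        rcases h2 with h2 | h2
        · rw [h2] at hcon ⊢
          nlinarith
        · rw [h2] at hcon ⊢
          nlinarith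
      have h1' : x A'' i ^ 2 + (x A'' j ^ 2 + ∑ c ∈ (L.erase i).erase j, (x A c) ^ 2) <
          x A i ^ 2 + (x A j ^ 2 + ∑ c ∈ (L.erase i).erase j, (x A c) ^ 2) := by omega
      exact h1'
    exact absurd (hmin m'' A'' hV'') (not_le.mpr hlt')
  -- double counting
  have hsum1 : ∑ i ∈ L, x A i = ∑ u ∈ U, (A u).card := by
    simp only [x]
    simp_rw [Finset.card_filter]
    rw [Finset.sum_comm]
    refine Finset.sum_congr rfl fun u hu => ?_
    rw [← Finset.card_filter]
    congr 1
    ext c
    rw [mem_filter]
    constructor
    · intro h; exact h.2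
    · intro h
      have := hAs u hu h
      rw [mem_filter] at this
      exact ⟨this.1, h⟩
  have hsum2 : ∑ u ∈ U, (A u).card = ∑ u ∈ U, s u := Finset.sum_congr rfl hAc
  by_contra hno
  push Not at hno
  have hex0 : ∃ j ∈ L, x A j = 0 := by
    by_contra h0
    push Not at h0
    have h2 : ∀ i ∈ L, 2 ≤ x A i := by
      intro i hi
      have h3 := h0 i hi
      have h4 : x A i ≠ 1 := hno i hi
      omega
    have h5 : ∑ i ∈ L, 2 ≤ ∑ i ∈ L, x A i := Finset.sum_le_sum h2
    simp at h5
    omega
  obtain ⟨j, hj, hj0⟩ := hex0
  have heven : Even (∑ i ∈ L, x A i) := by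
    apply Finset.even_sum
    intro i hi
    have h1 := claim1 i hi j hj
    have h2 : x A i ≠ 1 := hno i hi
    have h3 : x A i = 0 ∨ x A i = 2 := by omega
    rcases h3 with h3 | h3 <;> rw [h3] <;> decide
  obtain ⟨r, hr⟩ := heven
  obtain ⟨q, hq⟩ := hodd
  omega

theorem add_vertex (x : W) :
    ∀ (n : ℕ) (L : Finset ℕ), L.card = n → ∀ (m : ℕ → W → W), (∀ c v, m c (m c v) = v) →
    (∀ c ∈ L, m c x = x) → ∀ (μ : W → ℕ) (u0 : W), μ x = 0 → ∑ u, μ u ≤ n →
    (∀ u, 2 * μ u ≤ (L.filter (fun c => m c u = u)).card + (if u = u0 then 1 else 0)) →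
    ∃ m' : ℕ → W → W, (∀ c v, m' c (m' c v) = v) ∧ (∀ c, c ∉ L → m' c = m c) ∧
      ∀ u w, u ≠ w → mu L m' u w = mu L m u w +
        (if u = x then μ w else if w = x then μ u else 0) := by
  intro n
  induction n with
  | zero =>
    intro L hL m hm hx μ u0 hμx hU hmiss
    have h0 : ∀ u, μ u = 0 := by
      intro u
      have h1 : μ u ≤ ∑ u, μ u := Finset.single_le_sum (fun _ _ => Nat.zero_le _) (mem_univ u)
      omega
    exact ⟨m, hm, fun _ _ => rfl, fun u w _ => by simp [h0]⟩
  | succ n ih =>
    intro L hL m hm hx μ u0 hμx hU hmiss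
    by_cases hUe : ∀ u, μ u = 0
    · exact ⟨m, hm, fun _ _ => rfl, fun u w _ => by simp [hUe]⟩
    · push Not at hUe
      obtain ⟨v0, hv0, hmiss0⟩ : ∃ v0, μ v0 ≠ 0 ∧ ∀ u, 2 * μ u ≤
          (L.filter (fun c => m c u = u)).card + (if u = v0 then 1 else 0) := by
        by_cases h0 : μ u0 = 0
        · obtain ⟨v0, hv0⟩ := hUe
          refine ⟨v0, hv0, fun u => ?_⟩
          have h1 := hmiss u
          by_cases h2 : u = u0
          · rw [h2, h0]; omega
          · rw [if_neg h2] at h1
            omega
        · exact ⟨u0, h0, hmiss⟩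
      obtain ⟨m1, A, h1inv, h1out, h1mu, hAs, hAc, i, hi, hone⟩ :=
        exists_unique_colour L m hm univ (fun u => 2 * μ u - (if u = v0 then 1 else 0))
          (by
            have e1 : ∑ u, (2 * μ u - (if u = v0 then 1 else 0)) + 1 = 2 * ∑ u, μ u := by
              have e2 : ∑ u : W, (if u = v0 then 1 else 0) = 1 := by
                rw [Finset.sum_ite_eq' univ v0 (fun _ => 1), if_pos (mem_univ _)]
              calc ∑ u, (2 * μ u - (if u = v0 then 1 else 0)) + 1
                  = ∑ u, (2 * μ u - (if u = v0 then 1 else 0)) +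
                    ∑ u : W, (if u = v0 then 1 else 0) := by rw [e2]
                _ = ∑ u, 2 * μ u := by
                    rw [← Finset.sum_add_distrib]
                    refine Finset.sum_congr rfl fun u _ => ?_
                    by_cases h : u = v0
                    · subst h; simp; omega
                    · simp [h]
                _ = 2 * ∑ u, μ u := by rw [Finset.mul_sum]
            rw [Nat.odd_iff]
            omega)
          (by
            have e1 : ∑ u, (2 * μ u - (if u = v0 then 1 else 0)) < ∑ u, 2 * μ u := by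
              apply Finset.sum_lt_sum
              · intro u _; omega
              · refine ⟨v0, mem_univ _, ?_⟩
                simp; omega
            rw [← Finset.mul_sum] at e1
            omega)
          (by
            intro u _
            have := hmiss0 u
            omega)
      obtain ⟨u1, hu1⟩ := Finset.card_eq_one.mp hone
      have hu1U : i ∈ A u1 := by
        have : u1 ∈ univ.filter (fun u => i ∈ A u) := by rw [hu1]; exact mem_singleton_self _
        rw [mem_filter] at this
        exact this.2
      have honly : ∀ u, u ≠ u1 → i ∉ A u := by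
        intro u hne hiA
        have : u ∈ univ.filter (fun u => i ∈ A u) := mem_filter.mpr ⟨mem_univ _, hiA⟩
        rw [hu1, mem_singleton] at this
        exact hne this
      have hm1u1 : m1 i u1 = u1 := by
        have := hAs u1 (mem_univ _) hu1U
        rw [mem_filter] at this
        exact this.2
      have hm1x : ∀ c ∈ L, m1 c x = x := by
        have e1 : mu L m x x = L.card := by
          rw [mu_eq_card]
          congr 1
          exact Finset.filter_true_of_mem hx
        have e2 : (L.filter (fun c => m1 c x = x)).card = L.card := by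
          rw [← mu_eq_card, h1mu, e1]
        intro c hc
        exact Finset.card_filter_eq_iff.mp e2 c hc
      have hμu1 : μ u1 ≠ 0 := by
        intro h0
        have h1 := hAc u1 (mem_univ _)
        simp only [h0] at h1
        have h2 : A u1 = ∅ := by rw [← Finset.card_eq_zero]; omega
        rw [h2] at hu1U
        exact absurd hu1U (Finset.notMem_empty _)
      have hxu1 : x ≠ u1 := fun h => hμu1 (h ▸ hμx)
      have hLe : (L.erase i).card = n := by
        rw [Finset.card_erase_of_mem hi]; omega
      have hsumμ : ∑ u, (if u = u1 then μ u - 1 else μ u) + 1 = ∑ u, μ u := by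
        rw [← Finset.add_sum_erase univ (fun u => if u = u1 then μ u - 1 else μ u) (mem_univ u1),
          ← Finset.add_sum_erase univ μ (mem_univ u1)]
        have e : ∑ u ∈ univ.erase u1, (if u = u1 then μ u - 1 else μ u) =
            ∑ u ∈ univ.erase u1, μ u := by
          refine Finset.sum_congr rfl fun u hu => ?_
          rw [if_neg (Finset.ne_of_mem_erase hu)]
        rw [e]
        simp only [if_true]
        omega
      obtain ⟨m2, h2inv, h2out, h2mu⟩ := ih (L.erase i) hLe m1 h1inv
        (fun c hc => hm1x c (mem_of_mem_erase hc)) (fun u => if u = u1 then μ u - 1 else μ u) v0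
        (by simp only [if_neg hxu1, hμx])
        (by omega)
        (by
          intro u
          have hA := hAc u (mem_univ _)
          by_cases hu : u = u1
          · have h3 : ((A u).erase i).card ≤
                ((L.erase i).filter (fun c => m1 c u = u)).card := by
              apply Finset.card_le_card
              intro c hc
              rw [mem_erase] at hc
              have h3 := hAs u (mem_univ _) hc.2
              rw [mem_filter] at h3 ⊢
              exact ⟨mem_erase.mpr ⟨hc.1, h3.1⟩, h3.2⟩
            rw [Finset.card_erase_of_mem (hu ▸ hu1U)] at h3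
            rw [if_pos hu]
            omega
          · have h3 : (A u).card ≤ ((L.erase i).filter (fun c => m1 c u = u)).card := by
              apply Finset.card_le_card
              intro c hc
              have h3 := hAs u (mem_univ _) hc
              rw [mem_filter] at h3 ⊢
              refine ⟨mem_erase.mpr ⟨?_, h3.1⟩, h3.2⟩
              rintro rfl
              exact honly u hu hc
            rw [if_neg hu]
            omega)
      have h2i : m2 i = m1 i := h2out i (by simp)
      obtain ⟨m3, h3inv, h3out, h3mu⟩ := add_edge L m2 h2inv i hi x u1 hxu1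
        (by rw [h2i]; exact hm1x i hi) (by rw [h2i]; exact hm1u1)
      refine ⟨m3, h3inv, ?_, ?_⟩
      · intro c hc
        have hci : c ≠ i := fun h => hc (h ▸ hi)
        rw [h3out c hci, h2out c (fun h => hc (mem_of_mem_erase h)), h1out c hc]
      · intro u w huw
        rw [h3mu u w huw, mu_erase L m2 i hi, h2mu u w huw, h2i, ← h1mu u w,
          mu_erase L m1 i hi]
        by_cases hux : u = x
        · subst hux
          by_cases hw1 : w = u1
          · subst hw1
            simp
            omega
          · simp [hw1, huw.symm, hxu1]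
            omega
        · by_cases hwx : w = x
          · subst hwx
            by_cases hu1' : u = u1
            · subst hu1'
              simp [hux]
              omega
            · simp [hu1', hux]
              omega
          · simp [hux, hwx]

end core

end Pool.Agent.V11253.WR
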