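import Pool.Agent.V11253.WR.Add
set_option autoImplicit false
namespace Pool.Agent.V11253.WR

open Finset
open Pool.Agent.MPd14d18 (mu mu_congr mu_erase mu_eq_card mu_comm)

variable {W : Type*} [Fintype W] [DecidableEq W]

theorem sum_mu (L : Finset ℕ) (m : ℕ → W → W) (u : W) : ∑ w, mu L m u w = L.card := by
  unfold mu
  rw [Finset.sum_comm]
  have : ∀ c ∈ L, ∑ w : W, (if m c u = w then 1 else 0) = 1 := by
    intro c _
    rw [Finset.sum_ite_eq univ (m c u) (fun _ => 1), if_pos (mem_univ _)]
  rw [Finset.sum_congr rfl this]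
  simp

theorem miss_add (L : Finset ℕ) (m : ℕ → W → W) (u : W) :
    (L.filter (fun c => m c u = u)).card + ∑ w ∈ univ.erase u, mu L m u w = L.card := by
  rw [← mu_eq_card, Finset.add_sum_erase univ (fun w => mu L m u w) (mem_univ u), sum_mu]

theorem build (S : Finset W) (M : W → W → ℕ) (hMs : ∀ u w, M u w = M w u) (hM0 : ∀ u, M u u = 0)
    (ρ : W → ℕ) (hρ : ∀ u ∈ S, ∀ v ∈ S, ρ u = ρ v → u = v) (L : Finset ℕ)
    (h1 : ∀ x ∈ S, ∑ u ∈ S.filter (fun u => ρ u < ρ x), M u x ≤ L.card)
    (h2 : ∀ x ∈ S, ∃ u0, ∀ u ∈ S, ρ u < ρ x → M u x ≠ 0 →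
      2 * M u x + ∑ w ∈ S.filter (fun w => ρ w < ρ x), M u w ≤ L.card +
        if u = u0 then 1 else 0) :
    ∃ m : ℕ → W → W, (∀ c v, m c (m c v) = v) ∧
      ∀ u w, u ≠ w → mu L m u w = if u ∈ S ∧ w ∈ S then M u w else 0 := by
  have key : ∀ j : ℕ, ∃ m : ℕ → W → W, (∀ c v, m c (m c v) = v) ∧
      ∀ u w, u ≠ w → mu L m u w =
        if (u ∈ S ∧ ρ u < j) ∧ (w ∈ S ∧ ρ w < j) then M u w else 0 := by
    intro j
    induction j with
    | zero =>
      refine ⟨fun _ v => v, fun _ _ => rfl, fun u w huw => ?_⟩
      rw [if_neg (by omega), mu_eq_card]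
      simp [huw]
    | succ j ih =>
      obtain ⟨m, hm, hmu⟩ := ih
      by_cases hx : ∃ x ∈ S, ρ x = j
      · obtain ⟨x, hxS, hxj⟩ := hx
        have hfix : ∀ c ∈ L, m c x = x := by
          have e := miss_add L m x
          have e0 : ∑ w ∈ univ.erase x, mu L m x w = 0 := by
            apply Finset.sum_eq_zero
            intro w hw
            rw [hmu x w (Finset.ne_of_mem_erase hw).symm, if_neg (by omega)]
          rw [e0, add_zero] at e
          intro c hc
          exact Finset.card_filter_eq_iff.mp e c hc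
        obtain ⟨u0, hu0⟩ := h2 x hxS
        have hsumS : ∀ v : W, (∀ u, u = v → M v u = 0) → True := fun _ _ => trivial
        obtain ⟨m', h1', -, h3'⟩ := add_vertex x L.card L rfl m hm hfix
          (fun u => if u ∈ S ∧ ρ u < j then M u x else 0) u0
          (by simp [hxj])
          (by
            have := h1 x hxS
            rw [← Finset.sum_filter]
            rw [hxj] at this
            refine le_trans (le_of_eq ?_) this
            refine Finset.sum_congr ?_ fun _ _ => rfl
            ext u
            simp)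
          (by
            intro u
            by_cases hu : u ∈ S ∧ ρ u < j
            · by_cases hM : M u x = 0
              · rw [if_pos hu, hM]; omega
              · have e := miss_add L m u
                have e1 : ∑ w ∈ univ.erase u, mu L m u w =
                    ∑ w ∈ S.filter (fun w => ρ w < ρ x), M u w := by
                  have e2 : ∑ w ∈ univ.erase u, mu L m u w =
                      ∑ w ∈ univ.erase u, (if w ∈ S ∧ ρ w < j then M u w else 0) := by
                    refine Finset.sum_congr rfl fun w hw => ?_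
                    rw [hmu u w (Finset.ne_of_mem_erase hw).symm]
                    by_cases hw' : w ∈ S ∧ ρ w < j
                    · rw [if_pos ⟨hu, hw'⟩, if_pos hw']
                    · rw [if_neg (fun h => hw' h.2), if_neg hw']
                  have e3 : ∑ w ∈ univ.erase u, (if w ∈ S ∧ ρ w < j then M u w else 0) =
                      ∑ w, (if w ∈ S ∧ ρ w < j then M u w else 0) := by
                    rw [← Finset.add_sum_erase univ
                      (fun w => if w ∈ S ∧ ρ w < j then M u w else 0) (mem_univ u)]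
                    simp [hM0]
                  rw [e2, e3, ← Finset.sum_filter, hxj]
                  refine Finset.sum_congr ?_ fun _ _ => rfl
                  ext w
                  simp
                have h4 := hu0 u hu.1 (by rw [hxj]; exact hu.2) hM
                rw [if_pos hu]
                omega
            · rw [if_neg hu]; omega)
        refine ⟨m', h1', fun u w huw => ?_⟩
        rw [h3' u w huw, hmu u w huw]
        have hlt : ∀ v, v ∈ S → v ≠ x → (ρ v < j + 1 ↔ ρ v < j) := by
          intro v hvS hvx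
          constructor
          · intro h
            rcases Nat.lt_succ_iff_lt_or_eq.1 h with h | h
            · exact h
            · exact absurd (hρ v hvS x hxS (h.trans hxj.symm)) hvx
          · intro h; omega
        by_cases hux : u = x
        · subst hux
          rw [if_neg (by omega), if_pos rfl, zero_add]
          by_cases hw : w ∈ S
          · have := hlt w hw huw.symm
            by_cases hw2 : ρ w < j
            · rw [if_pos ⟨hw, hw2⟩, if_pos ⟨⟨hxS, by omega⟩, ⟨hw, by omega⟩⟩, hMs]
            · rw [if_neg (fun h => hw2 h.2), if_neg (fun h => hw2 (this.1 h.2.2))]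
          · rw [if_neg (fun h => hw h.1), if_neg (fun h => hw h.2.1)]
        · rw [if_neg hux]
          by_cases hwx : w = x
          · subst hwx
            rw [if_neg (by omega), if_pos rfl, zero_add]
            by_cases hw : u ∈ S
            · have := hlt u hw huw
              by_cases hw2 : ρ u < j
              · rw [if_pos ⟨hw, hw2⟩, if_pos ⟨⟨hw, by omega⟩, ⟨hxS, by omega⟩⟩]
              · rw [if_neg (fun h => hw2 h.2), if_neg (fun h => hw2 (this.1 h.1.2))]
            · rw [if_neg (fun h => hw h.1), if_neg (fun h => hw h.1.1)]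
          · rw [if_neg hwx, add_zero]
            congr 1
            apply propext
            constructor
            · rintro ⟨⟨a1, a2⟩, a3, a4⟩
              exact ⟨⟨a1, by omega⟩, a3, by omega⟩
            · rintro ⟨⟨a1, a2⟩, a3, a4⟩
              exact ⟨⟨a1, (hlt u a1 hux).1 a2⟩, a3, (hlt w a3 hwx).1 a4⟩
      · refine ⟨m, hm, fun u w huw => ?_⟩
        rw [hmu u w huw]
        have hlt : ∀ v, v ∈ S → (ρ v < j + 1 ↔ ρ v < j) := by
          intro v hv
          constructor
          · intro h
            rcases Nat.lt_succ_iff_lt_or_eq.1 h with h | h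
            · exact h
            · exact absurd ⟨v, hv, h⟩ hx
          · intro h; omega
        congr 1
        apply propext
        constructor
        · rintro ⟨⟨a1, a2⟩, a3, a4⟩
          exact ⟨⟨a1, by omega⟩, a3, by omega⟩
        · rintro ⟨⟨a1, a2⟩, a3, a4⟩
          exact ⟨⟨a1, (hlt u a1).1 a2⟩, a3, (hlt w a3).1 a4⟩
  obtain ⟨m, hm, hmu⟩ := key (univ.sup ρ + 1)
  refine ⟨m, hm, fun u w huw => ?_⟩
  rw [hmu u w huw]
  have hle : ∀ v, ρ v < univ.sup ρ + 1 := fun v =>
    Nat.lt_succ_of_le (Finset.le_sup (f := ρ) (mem_univ v))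
  congr 1
  apply propext
  constructor
  · rintro ⟨⟨a1, _⟩, a3, _⟩
    exact ⟨a1, a3⟩
  · rintro ⟨a1, a3⟩
    exact ⟨⟨a1, hle u⟩, a3, hle w⟩

/-- The rooted extension lemma. -/
theorem rooted (S : Finset W) (M : W → W → ℕ) (hMs : ∀ u w, M u w = M w u) (hM0 : ∀ u, M u u = 0)
    (L : Finset ℕ) (r : ℕ) (ℓ : W → ℕ) (y0 : W) (hy0 : y0 ∈ S) (hℓ0 : ℓ y0 = 0)
    (ha : ∀ u ∈ S, ∑ w ∈ S, M u w + r ≤ L.card)
    (hb : ∀ u ∈ S, ∀ x ∈ S, M u x ≤ r + 1)
    (hc : ∀ u ∈ S, ∀ x ∈ S, M u x = r + 1 → ℓ u = ℓ x)
    (hd : ∀ u ∈ S, ℓ u ≠ 0 → ∃ w ∈ S, ℓ w < ℓ u ∧ M u w ≠ 0)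
    (he : ∀ u ∈ S, ℓ u = 0 → u ≠ y0 → M u y0 ≠ 0)
    (hf : ∃ u0, ∀ u ∈ S, M u y0 = r + 1 → u ≠ u0 → ∑ w ∈ S, M u w + r + 1 ≤ L.card) :
    ∃ m : ℕ → W → W, (∀ c v, m c (m c v) = v) ∧
      ∀ u w, u ≠ w → mu L m u w = if u ∈ S ∧ w ∈ S then M u w else 0 := by
  classical
  set n := Fintype.card W with hn
  set T := univ.sup ℓ with hT
  have hℓT : ∀ v, ℓ v ≤ T := fun v => Finset.le_sup (f := ℓ) (mem_univ v)
  let e := Fintype.equivFin W
  let pos : W → ℕ := fun v => if v = y0 then n else (e v : ℕ)
  have hpos : ∀ v, pos v ≤ n := by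
    intro v
    simp only [pos]
    split_ifs
    · exact le_rfl
    · exact (e v).2.le
  have hposlt : ∀ v, v ≠ y0 → pos v < n := by
    intro v hv
    simp only [pos, if_neg hv]
    exact (e v).2
  have hposinj : ∀ u v, pos u = pos v → u = v := by
    intro u v h
    by_cases hu : u = y0
    · by_cases hv : v = y0
      · rw [hu, hv]
      · have h1 := hposlt v hv
        have h2 : pos u = n := by simp only [pos, if_pos hu]
        omega
    · by_cases hv : v = y0
      · have h1 := hposlt u hu
        have h2 : pos v = n := by simp only [pos, if_pos hv]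
        omega
      · simp only [pos, if_neg hu, if_neg hv] at h
        exact e.injective (Fin.ext h)
  let ρ : W → ℕ := fun v => (T - ℓ v) * (n + 1) + pos v
  have hlt : ∀ u v, ℓ v < ℓ u → ρ u < ρ v := by
    intro u v h
    have h1 := hℓT u
    have h2 := hpos u
    have h3 : (T - ℓ u) + 1 ≤ T - ℓ v := by omega
    have h4 : ((T - ℓ u) + 1) * (n + 1) ≤ (T - ℓ v) * (n + 1) := Nat.mul_le_mul_right _ h3
    simp only [ρ]
    nlinarith
  have hρinj : ∀ u v, ρ u = ρ v → u = v := by
    intro u v h
    rcases lt_trichotomy (ℓ u) (ℓ v) with h1 | h1 | h1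
    · have := hlt v u h1; omega
    · apply hposinj
      simp only [ρ, h1] at h
      omega
    · have := hlt u v h1; omega
  have hroot : ∀ v, v ≠ y0 → ρ v < ρ y0 := by
    intro v hv
    by_cases h1 : ℓ v = 0
    · have h2 := hposlt v hv
      have h3 : pos y0 = n := by simp only [pos, if_true]
      simp only [ρ, h1, hℓ0, h3]
      omega
    · exact hlt v y0 (by omega)
  have hpart : ∀ u ∈ S, ∀ x ∈ S, ∑ w ∈ S.filter (fun w => ρ w < ρ x), M u w + M u x ≤
      ∑ w ∈ S, M u w := by
    intro u _ x hx
    have h1 : x ∉ S.filter (fun w => ρ w < ρ x) := by simp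
    rw [add_comm, ← Finset.sum_insert h1]
    apply Finset.sum_le_sum_of_subset
    intro w hw
    rw [mem_insert, mem_filter] at hw
    rcases hw with rfl | hw
    · exact hx
    · exact hw.1
  have hpart2 : ∀ u ∈ S, ∀ x ∈ S, ∀ z ∈ S, ρ x < ρ z →
      ∑ w ∈ S.filter (fun w => ρ w < ρ x), M u w + M u x + M u z ≤ ∑ w ∈ S, M u w := by
    intro u _ x hx z hz hxz
    have h1 : x ∉ S.filter (fun w => ρ w < ρ x) := by simp
    have h2 : z ∉ insert x (S.filter (fun w => ρ w < ρ x)) := by
      rw [mem_insert, mem_filter]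
      rintro (rfl | h)
      · exact lt_irrefl _ hxz
      · exact absurd h.2 (by omega)
    rw [add_comm (∑ w ∈ S.filter (fun w => ρ w < ρ x), M u w), ← Finset.sum_insert h1,
      add_comm, ← Finset.sum_insert h2]
    apply Finset.sum_le_sum_of_subset
    intro w hw
    rw [mem_insert, mem_insert, mem_filter] at hw
    rcases hw with rfl | rfl | hw
    · exact hz
    · exact hx
    · exact hw.1
  refine build S M hMs hM0 ρ (fun u _ v _ h => hρinj u v h) L ?_ ?_
  · intro x hx
    have h1 := hpart x hx x hx
    have h2 := ha x hx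
    have h3 : ∑ u ∈ S.filter (fun u => ρ u < ρ x), M u x =
        ∑ u ∈ S.filter (fun u => ρ u < ρ x), M x u :=
      Finset.sum_congr rfl fun u _ => hMs u x
    rw [h3]
    omega
  · intro x hx
    by_cases hxy : x = y0
    · obtain ⟨u0, hu0⟩ := hf
      refine ⟨u0, fun u hu _ _ => ?_⟩
      have h1 := hpart u hu x hx
      have h2 := ha u hu
      have h3 := hb u hu x hx
      by_cases h4 : M u x = r + 1
      · by_cases h5 : u = u0
        · rw [if_pos h5]; omega
        · have h6 := hu0 u hu (hxy ▸ h4) h5
          rw [if_neg h5]; omega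
      · have : M u x ≤ r := by omega
        omega
    · refine ⟨x, fun u hu hux hM => ?_⟩
      have hne : u ≠ x := by rintro rfl; exact lt_irrefl _ hux
      rw [if_neg hne]
      have h2 := ha u hu
      have h3 := hb u hu x hx
      by_cases h4 : M u x = r + 1
      · have h5 := hc u hu x hx h4
        by_cases h6 : ℓ u = 0
        · have hxr := hroot x hxy
          have huy : u ≠ y0 := by
            rintro rfl
            omega
          have h7 := he u hu h6 huy
          have h8 := hpart2 u hu x hx y0 hy0 hxr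
          omega
        · obtain ⟨w, hw, hwl, hwM⟩ := hd u hu h6
          have h8 := hpart2 u hu x hx w hw (hlt x w (by omega))
          omega
      · have h1 := hpart u hu x hx
        omega

end Pool.Agent.V11253.WR
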