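import Pool.Agent.V11253.WR.Piece
set_option autoImplicit false
namespace Pool.Agent.V11253.WR

open Finset

variable {W : Type*}

/-- one step inside a piece -/
def Stp (H : SimpleGraph W) (O : W → W → Prop) (a b : W) : Prop := H.Adj a b ∨ O a b

def Rch (H : SimpleGraph W) (O : W → W → Prop) : W → W → Prop :=
  Relation.ReflTransGen (Stp H O)

theorem Rch_symm (H : SimpleGraph W) (O : W → W → Prop) (hO : Equivalence O) (a b : W)
    (h : Rch H O a b) : Rch H O b a := by
  have hs : ∀ a b, Stp H O a b → Stp H O b a := by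
    intro a b h
    rcases h with h | h
    · exact Or.inl h.symm
    · exact Or.inr (hO.symm h)
  induction h with
  | refl => exact Relation.ReflTransGen.refl
  | tail _ h1 ih => exact Relation.ReflTransGen.head (hs _ _ h1) ih

theorem Rch_lev (H : SimpleGraph W) (O : W → W → Prop) (hO : Equivalence O)
    (hE : ∀ u u' w, O u u' → H.Adj u w → ∃ w', O w w' ∧ H.Adj u' w') (y0 v : W)
    (h : Rch H O y0 v) : ∃ t, Lev H O y0 t v := by
  induction h with
  | refl => exact ⟨0, hO.refl y0⟩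
  | tail _ hs ih =>
    obtain ⟨t, ht⟩ := ih
    rcases hs with hs | hs
    · exact ⟨t + 1, Or.inr ⟨_, ht, hs⟩⟩
    · exact ⟨t, Lev_O H O hO y0 hE t _ _ hs ht⟩

variable [Fintype W] [DecidableEq W]

theorem piece_exists (H : SimpleGraph W) (O : W → W → Prop) (hO : Equivalence O)
    (hE : ∀ u u' w, O u u' → H.Adj u w → ∃ w', O w w' ∧ H.Adj u' w')
    (hdg : ∀ u u', O u u' → (cl H.Adj u).card = (cl H.Adj u').card)
    (r D : ℕ) (hr : 1 ≤ r)
    (hD : ∀ u, (cl H.Adj u).card + r * (cl O u).card ≤ D) (y : W) :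
    ∃ φ ψ, Tmpl H O r D (↑(cl (Rch H O) y)) φ ψ := by
  classical
  set S := cl (Rch H O) y with hS
  have hmem : ∀ v, v ∈ S ↔ Rch H O y v := fun v => mem_cl _ y v
  have hSO : ∀ u ∈ S, ∀ v, O u v → v ∈ S := by
    intro u hu v huv
    rw [hmem] at hu ⊢
    exact Relation.ReflTransGen.tail hu (Or.inr huv)
  have hSA : ∀ u ∈ S, ∀ v, H.Adj u v → v ∈ S := by
    intro u hu v huv
    rw [hmem] at hu ⊢
    exact Relation.ReflTransGen.tail hu (Or.inl huv)
  have hSL : ∀ y0 ∈ S, ∀ v ∈ S, ∃ t, Lev H O y0 t v := by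
    intro y0 hy0 v hv
    rw [hmem] at hy0 hv
    exact Rch_lev H O hO hE y0 v
      (Relation.ReflTransGen.trans (Rch_symm H O hO y y0 hy0) hv)
  by_cases hA : ∃ y0 ∈ S, (cl H.Adj y0).card + r * (cl O y0).card + 1 ≤ D
  · obtain ⟨y0, hy0, hs⟩ := hA
    refine piece H O hO hE r D 0 hr S hSO hSA y0 hy0 (hSL y0 hy0) (fun _ _ => False)
      (fun _ _ h => h) (fun _ _ h => h.elim) (fun _ h => h) (fun _ _ => 0)
      (fun _ _ h => h.elim) (fun _ _ _ h => h.elim) (fun _ _ _ h => h.elim)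
      (fun _ _ => by omega) (fun _ h => h.elim) (fun u _ => hD u) ⟨y0, ?_⟩
    intro u _ hu _ _ _
    rw [← hdg y0 u hu, ← cl_eq O hO y0 u hu]
    exact hs
  · push Not at hA
    have hyS : y ∈ S := (hmem y).2 Relation.ReflTransGen.refl
    let din : W → Finset W := fun u => univ.filter (fun v => O u v ∧ H.Adj u v)
    obtain ⟨y0, hy0, hmin⟩ := Finset.exists_min_image S (fun u => (din u).card) ⟨y, hyS⟩
    have hN : ∀ u, (din u).card + 1 ≤ (cl O u).card := by
      intro u
      have h1 : din u ⊆ (cl O u).erase u := by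
        intro v hv
        rw [mem_filter] at hv
        rw [mem_erase, mem_cl]
        exact ⟨hv.2.2.ne', hv.2.1⟩
      have h2 := Finset.card_le_card h1
      have h3 : u ∈ cl O u := (mem_cl O u u).2 (hO.refl u)
      rw [Finset.card_erase_of_mem h3] at h2
      have h4 := Finset.card_pos.2 ⟨u, h3⟩
      omega
    set k := (din y0).card / 2 with hk
    obtain ⟨B, hBs, hBc⟩ := Finset.exists_subset_card_eq (s := din y0) (n := 2 * k) (by omega)
    have hBp : ∀ v ∈ B, O y0 v ∧ H.Adj y0 v := fun v hv => (mem_filter.1 (hBs hv)).2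
    obtain ⟨P, α, c1, c2, c3, c4, c5, c6, c7, c8⟩ := circ O hO k y0 (↑S)
      (fun u hu v h => hSO u hu v h) hy0 B hBc (fun v hv => ⟨(hBp v hv).1, (hBp v hv).2.ne'⟩)
      (by
        intro u hu
        have h1 := hmin u hu
        have h2 := hN u
        omega)
    refine piece H O hO hE r D k hr S hSO hSA y0 hy0 (hSL y0 hy0) P c1 c2 c3 α c4 c5 c6
      (fun u hu => c7 u hu) (fun v hv => (hBp v (c8 v hv)).2) (fun u _ => hD u) ?_
    -- at most one remaining doubled neighbour of the root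
    have hrest : (din y0 \ cl P y0).card ≤ 1 := by
      have h1 : cl P y0 ⊆ din y0 := by
        intro v hv
        exact hBs (c8 v ((mem_cl P y0 v).1 hv))
      have h2 := Finset.card_sdiff_add_card_eq_card h1
      have h3 := c7 y0 hy0
      omega
    have hdec : ∃ u0, ∀ u ∈ din y0 \ cl P y0, u = u0 := by
      by_cases hne : (din y0 \ cl P y0).Nonempty
      · obtain ⟨u0, hu0⟩ := hne
        exact ⟨u0, fun u hu => Finset.card_le_one.1 hrest u hu u0 hu0⟩
      · refine ⟨y0, fun u hu => ?_⟩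
        exact absurd ⟨u, hu⟩ hne
    obtain ⟨u0, hu0⟩ := hdec
    refine ⟨u0, fun u _ h1 h2 h3 h4 => ?_⟩
    exfalso
    apply h4
    apply hu0
    rw [mem_sdiff, mem_filter, mem_cl]
    exact ⟨⟨mem_univ _, h1, h2⟩, h3⟩

theorem glue (H : SimpleGraph W) (O : W → W → Prop) (hO : Equivalence O)
    (hE : ∀ u u' w, O u u' → H.Adj u w → ∃ w', O w w' ∧ H.Adj u' w')
    (hdg : ∀ u u', O u u' → (cl H.Adj u).card = (cl H.Adj u').card)
    (r D : ℕ) (hr : 1 ≤ r)
    (hD : ∀ u, (cl H.Adj u).card + r * (cl O u).card ≤ D) :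
    ∃ φ ψ, Tmpl H O r D Set.univ φ ψ := by
  classical
  have hex : ∀ T : Finset W, ∃ F : (W → W → ℕ) × (ℕ → W → W → ℕ),
      (∃ y, T = cl (Rch H O) y) → Tmpl H O r D (↑T) F.1 F.2 := by
    intro T
    by_cases h : ∃ y, T = cl (Rch H O) y
    · obtain ⟨y, rfl⟩ := h
      obtain ⟨φ, ψ, h⟩ := piece_exists H O hO hE hdg r D hr hD y
      exact ⟨(φ, ψ), fun _ => h⟩
    · exact ⟨(fun _ _ => 0, fun _ _ _ => 0), fun h' => absurd h' h⟩
  choose F hF using hex
  have hT : ∀ u, Tmpl H O r D (↑(cl (Rch H O) u)) (F (cl (Rch H O) u)).1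
      (F (cl (Rch H O) u)).2 := fun u => hF _ ⟨u, rfl⟩
  have hself : ∀ u, u ∈ (↑(cl (Rch H O) u) : Set W) := fun u =>
    Finset.mem_coe.2 ((mem_cl _ u u).2 Relation.ReflTransGen.refl)
  have heqv : Equivalence (Rch H O) := ⟨fun _ => Relation.ReflTransGen.refl,
    fun h => Rch_symm H O hO _ _ h, fun h h' => Relation.ReflTransGen.trans h h'⟩
  have hcA : ∀ u v, H.Adj u v → cl (Rch H O) u = cl (Rch H O) v := fun u v h =>
    cl_eq _ heqv u v (Relation.ReflTransGen.single (Or.inl h))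
  have hcO : ∀ u v, O u v → cl (Rch H O) u = cl (Rch H O) v := fun u v h =>
    cl_eq _ heqv u v (Relation.ReflTransGen.single (Or.inr h))
  let φ : W → W → ℕ := fun u v => (F (cl (Rch H O) u)).1 u v
  let ψ : ℕ → W → W → ℕ := fun c u v => (F (cl (Rch H O) u)).2 c u v
  have hori : ∀ u v, O u v → ∀ c b, ori ψ c b u v = ori (F (cl (Rch H O) u)).2 c b u v := by
    intro u v h c b
    unfold ori
    cases b
    · simp only [ψ, Bool.false_eq_true, if_false]
      rw [hcO u v h]
    · simp only [ψ, if_true]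
  refine ⟨φ, ψ, ?_, ?_, ?_, ?_, ?_, ?_⟩
  · intro u _ v h
    exact (hT u).flt u (hself u) v h
  · intro u _ v h
    have := (hT u).fsymm u (hself u) v h
    simp only [φ]
    rw [this, hcA u v h]
  · intro u _ v v' h h' he
    exact (hT u).finj u (hself u) v v' h h' he
  · intro u _ v h c hc
    exact (hT u).plt u (hself u) v h c hc
  · intro u _ v v' h h' c hc c' hc' b b' hbb he
    rw [hori u v h, hori u v' h'] at he
    exact (hT u).cross u (hself u) v v' h h' c hc c' hc' b b' hbb he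
  · intro u _ w v h h' c hc b
    rw [hori u v h']
    exact (hT u).mix u (hself u) w v h h' c hc b

end Pool.Agent.V11253.WR
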