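import Mathlib
set_option autoImplicit false
namespace Pool.Agent.V11253.WR

open Finset

variable {W : Type*}

open Classical in
/-- an enumeration of a finite set -/
noncomputable def fpos (t : Finset W) (v : W) : ℕ :=
  if h : v ∈ t then (t.equivFin ⟨v, h⟩ : ℕ) else 0

theorem fpos_lt (t : Finset W) (v : W) (h : v ∈ t) : fpos t v < t.card := by
  unfold fpos
  rw [dif_pos h]
  exact (t.equivFin ⟨v, h⟩).2

theorem fpos_inj (t : Finset W) (u v : W) (hu : u ∈ t) (hv : v ∈ t) (h : fpos t u = fpos t v) :
    u = v := by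
  unfold fpos at h
  rw [dif_pos hu, dif_pos hv] at h
  have := t.equivFin.injective (Fin.ext h)
  exact congrArg Subtype.val this

open Classical in
/-- the special enumeration of the root orbit -/
noncomputable def rpos (t B : Finset W) (y0 : W) (k : ℕ) (v : W) : ℕ :=
  if v = y0 then 0 else
    if v ∈ B then (if fpos B v < k then fpos B v + 1 else t.card - 2 * k + fpos B v)
    else k + 1 + fpos (t \ insert y0 B) v

theorem rpos_spec (t B : Finset W) (y0 : W) (k : ℕ) (hy : y0 ∈ t) (hB : B ⊆ t) (hyB : y0 ∉ B)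
    (hBc : B.card = 2 * k) (ht : 2 * k + 1 ≤ t.card) :
    (∀ v ∈ t, rpos t B y0 k v < t.card) ∧
    (∀ u ∈ t, ∀ v ∈ t, rpos t B y0 k u = rpos t B y0 k v → u = v) ∧
    rpos t B y0 k y0 = 0 ∧
    (∀ v ∈ t, ((1 ≤ rpos t B y0 k v ∧ rpos t B y0 k v ≤ k) ∨ t.card - k ≤ rpos t B y0 k v) →
      v ∈ B) := by
  classical
  have hR : (t \ insert y0 B).card + (2 * k + 1) = t.card := by
    have h1 : insert y0 B ⊆ t := by
      intro x hx
      rw [mem_insert] at hx
      rcases hx with rfl | hx
      · exact hy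
      · exact hB hx
    have h2 := Finset.card_sdiff_add_card_eq_card h1
    rw [Finset.card_insert_of_notMem hyB, hBc] at h2
    exact h2
  have c1 : ∀ v, v ≠ y0 → v ∈ B → fpos B v < 2 * k := by
    intro v _ hv
    rw [← hBc]; exact fpos_lt B v hv
  have c2 : ∀ v ∈ t, v ≠ y0 → v ∉ B → v ∈ t \ insert y0 B := by
    intro v hv h1 h2
    rw [mem_sdiff, mem_insert]
    exact ⟨hv, fun h => h.elim h1 h2⟩
  have c3 : ∀ v ∈ t, v ≠ y0 → v ∉ B → fpos (t \ insert y0 B) v < (t \ insert y0 B).card :=
    fun v hv h1 h2 => fpos_lt _ v (c2 v hv h1 h2)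
  have v0 : rpos t B y0 k y0 = 0 := by simp [rpos]
  have v1 : ∀ v, v ≠ y0 → v ∈ B → rpos t B y0 k v =
      if fpos B v < k then fpos B v + 1 else t.card - 2 * k + fpos B v := by
    intro v h1 h2
    simp [rpos, h1, h2]
  have v2 : ∀ v, v ≠ y0 → v ∉ B → rpos t B y0 k v = k + 1 + fpos (t \ insert y0 B) v := by
    intro v h1 h2
    simp [rpos, h1, h2]
  refine ⟨?_, ?_, v0, ?_⟩
  · intro v hv
    by_cases h1 : v = y0
    · rw [h1, v0]; omega
    · by_cases h2 : v ∈ B
      · rw [v1 v h1 h2]
        have := c1 v h1 h2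
        split_ifs <;> omega
      · rw [v2 v h1 h2]
        have := c3 v hv h1 h2
        omega
  · intro u hu v hv h
    by_cases h1 : u = y0
    · by_cases h1' : v = y0
      · rw [h1, h1']
      · exfalso
        rw [h1, v0] at h
        by_cases h2' : v ∈ B
        · rw [v1 v h1' h2'] at h
          have := c1 v h1' h2'
          split_ifs at h <;> omega
        · rw [v2 v h1' h2'] at h
          omega
    · by_cases h1' : v = y0
      · exfalso
        rw [h1', v0] at h
        by_cases h2 : u ∈ B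
        · rw [v1 u h1 h2] at h
          have := c1 u h1 h2
          split_ifs at h <;> omega
        · rw [v2 u h1 h2] at h
          omega
      · by_cases h2 : u ∈ B
        · have b1 := c1 u h1 h2
          rw [v1 u h1 h2] at h
          by_cases h2' : v ∈ B
          · have b2 := c1 v h1' h2'
            rw [v1 v h1' h2'] at h
            apply fpos_inj B u v h2 h2'
            split_ifs at h <;> omega
          · exfalso
            have b2 := c3 v hv h1' h2'
            rw [v2 v h1' h2'] at h
            split_ifs at h <;> omega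
        · have b1 := c3 u hu h1 h2
          rw [v2 u h1 h2] at h
          by_cases h2' : v ∈ B
          · exfalso
            have b2 := c1 v h1' h2'
            rw [v1 v h1' h2'] at h
            split_ifs at h <;> omega
          · rw [v2 v h1' h2'] at h
            exact fpos_inj _ u v (c2 u hu h1 h2) (c2 v hv h1' h2') (by omega)
  · intro v hv h
    by_contra h2
    by_cases h1 : v = y0
    · rw [h1, v0] at h
      omega
    · rw [v2 v h1 h2] at h
      have := c3 v hv h1 h2
      omega

variable [Fintype W]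

open Classical in
/-- the class of `u` -/
noncomputable def cl (O : W → W → Prop) (u : W) : Finset W := univ.filter (fun v => O u v)

theorem mem_cl (O : W → W → Prop) (u v : W) : v ∈ cl O u ↔ O u v := by
  classical
  simp [cl]

theorem cl_eq (O : W → W → Prop) (hO : Equivalence O) (u v : W) (h : O u v) :
    cl O u = cl O v := by
  ext w
  rw [mem_cl, mem_cl]
  exact ⟨fun h' => hO.trans (hO.symm h) h', fun h' => hO.trans h h'⟩

theorem pos_exists (O : W → W → Prop) (hO : Equivalence O) (k : ℕ) (y0 : W) (B : Finset W)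
    (hBc : B.card = 2 * k) (hB : ∀ v ∈ B, O y0 v ∧ v ≠ y0) (hN : 2 * k + 1 ≤ (cl O y0).card) :
    ∃ pos : W → ℕ, (∀ u, pos u < (cl O u).card) ∧ (∀ u v, O u v → pos u = pos v → u = v) ∧
      pos y0 = 0 ∧ (∀ v, O y0 v → ((1 ≤ pos v ∧ pos v ≤ k) ∨ (cl O y0).card - k ≤ pos v) →
        v ∈ B) ∧ ∀ u, ∀ j < (cl O u).card, ∃ v, O u v ∧ pos v = j := by
  classical
  obtain ⟨r1, r2, r3, r4⟩ := rpos_spec (cl O y0) B y0 k ((mem_cl O y0 y0).2 (hO.refl y0))
    (fun v hv => (mem_cl O y0 v).2 (hB v hv).1) (fun h => (hB y0 h).2 rfl) hBc hN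
  let pos : W → ℕ := fun v => if O y0 v then rpos (cl O y0) B y0 k v else fpos (cl O v) v
  have p1 : ∀ u, pos u < (cl O u).card := by
    intro u
    simp only [pos]
    by_cases h : O y0 u
    · rw [if_pos h, ← cl_eq O hO y0 u h]
      exact r1 u ((mem_cl O y0 u).2 h)
    · rw [if_neg h]
      exact fpos_lt _ _ ((mem_cl O u u).2 (hO.refl u))
  have p2 : ∀ u v, O u v → pos u = pos v → u = v := by
    intro u v huv h
    simp only [pos] at h
    by_cases h1 : O y0 u
    · have h2 : O y0 v := hO.trans h1 huv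
      rw [if_pos h1, if_pos h2] at h
      exact r2 u ((mem_cl O y0 u).2 h1) v ((mem_cl O y0 v).2 h2) h
    · have h2 : ¬ O y0 v := fun h' => h1 (hO.trans h' (hO.symm huv))
      rw [if_neg h1, if_neg h2, ← cl_eq O hO u v huv] at h
      exact fpos_inj _ u v ((mem_cl O u u).2 (hO.refl u)) ((mem_cl O u v).2 huv) h
  refine ⟨pos, p1, p2, ?_, ?_, ?_⟩
  · simp only [pos, if_pos (hO.refl y0)]
    exact r3
  · intro v hv h
    simp only [pos, if_pos hv] at h
    exact r4 v ((mem_cl O y0 v).2 hv) h
  · intro u j hj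
    have himg : (cl O u).image pos = range (cl O u).card := by
      apply Finset.eq_of_subset_of_card_le
      · intro x hx
        rw [mem_image] at hx
        obtain ⟨v, hv, rfl⟩ := hx
        rw [mem_range, cl_eq O hO u v ((mem_cl O u v).1 hv)]
        exact p1 v
      · rw [card_range, Finset.card_image_of_injOn]
        intro a ha b hb hab
        have ha' := (mem_cl O u a).1 ha
        have hb' := (mem_cl O u b).1 hb
        exact p2 a b (hO.trans (hO.symm ha') hb') hab
    have : j ∈ (cl O u).image pos := by rw [himg, mem_range]; exact hj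
    rw [mem_image] at this
    obtain ⟨v, hv, hvj⟩ := this
    exact ⟨v, (mem_cl O u v).1 hv, hvj⟩

/-- Cyclic 2-factors with two-sided colours. -/
theorem circ (O : W → W → Prop) (hO : Equivalence O) (k : ℕ) (y0 : W) (S : Set W)
    (hSO : ∀ u ∈ S, ∀ v, O u v → v ∈ S) (hy0 : y0 ∈ S) (B : Finset W)
    (hBc : B.card = 2 * k) (hB : ∀ v ∈ B, O y0 v ∧ v ≠ y0)
    (hN : ∀ u ∈ S, 2 * k + 1 ≤ (cl O u).card) :
    ∃ (P : W → W → Prop) (α : W → W → ℕ), (∀ u v, P u v → P v u) ∧ (∀ u v, P u v → O u v) ∧
      (∀ u, ¬ P u u) ∧ (∀ u v, P u v → α u v < 2 * k) ∧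
      (∀ u v v', P u v → P u v' → α u v = α u v' → v = v') ∧
      (∀ u v v', P v u → P v' u → α v u = α v' u → v = v') ∧
      (∀ u ∈ S, 2 * k ≤ (cl P u).card) ∧ (∀ v, P y0 v → v ∈ B) := by
  classical
  obtain ⟨pos, p1, p2, p3, p4, p5⟩ := pos_exists O hO k y0 B hBc hB (hN y0 hy0)
  let N : W → ℕ := fun u => (cl O u).card
  have hNO : ∀ u v, O u v → N u = N v := fun u v h => by simp only [N, cl_eq O hO u v h]
  let df : W → W → ℕ := fun u v => if pos u ≤ pos v then pos v - pos u else pos v + N u - pos u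
  let P : W → W → Prop := fun u v => u ∈ S ∧ O u v ∧
    ((1 ≤ df u v ∧ df u v ≤ k) ∨ N u - k ≤ df u v)
  let α : W → W → ℕ := fun u v => if df u v ≤ k then df u v - 1 else k + (N u - df u v) - 1
  have hp1 : ∀ u, pos u < N u := p1
  have hNS : ∀ u ∈ S, 2 * k + 1 ≤ N u := hN
  have hdf : ∀ u v, O u v → df u v < N u := by
    intro u v h
    have h1 := hp1 u
    have h2 := hp1 v
    rw [← hNO u v h] at h2
    simp only [df]
    split_ifs <;> omega
  have hdfe : ∀ u v, O u v → u ≠ v → df v u = N u - df u v ∧ 1 ≤ df u v := by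
    intro u v h hne
    have h1 := hp1 u
    have h2 := hp1 v
    have h3 : pos u ≠ pos v := fun h' => hne (p2 u v h h')
    have h4 := hNO u v h
    simp only [df]
    rw [← h4] at h2 ⊢
    split_ifs <;> omega
  have hdinj : ∀ u v v', O u v → O u v' → df u v = df u v' → v = v' := by
    intro u v v' h h' he
    apply p2 v v' (hO.trans (hO.symm h) h')
    have h1 := hp1 u
    have h2 := hp1 v
    have h3 := hp1 v'
    rw [← hNO u v h] at h2
    rw [← hNO u v' h'] at h3
    simp only [df] at he
    split_ifs at he <;> omega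
  have hPi : ∀ u, ¬ P u u := by
    intro u ⟨h1, _, h2⟩
    have h3 := hNS u h1
    simp only [df, le_refl, if_true, Nat.sub_self] at h2
    omega
  have hPs : ∀ u v, P u v → P v u := by
    intro u v h
    have hne : u ≠ v := by rintro rfl; exact hPi _ h
    obtain ⟨h1, h2, h3⟩ := h
    obtain ⟨h4, h5⟩ := hdfe u v h2 hne
    have h6 := hNS u h1
    have h7 := hdf u v h2
    refine ⟨hSO u h1 v h2, hO.symm h2, ?_⟩
    rw [← hNO u v h2, h4]
    omega
  have hPO : ∀ u v, P u v → O u v := fun u v h => h.2.1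
  have hα : ∀ u v, P u v → α u v < 2 * k := by
    intro u v h
    have hne : u ≠ v := by rintro rfl; exact hPi _ h
    obtain ⟨h1, h2, h3⟩ := h
    obtain ⟨h4, h5⟩ := hdfe u v h2 hne
    have h6 := hNS u h1
    have h7 := hdf u v h2
    simp only [α]
    split_ifs <;> omega
  have hαr : ∀ u v v', P u v → P u v' → α u v = α u v' → v = v' := by
    intro u v v' h h' he
    have hne : u ≠ v := by rintro rfl; exact hPi _ h
    have hne' : u ≠ v' := by rintro rfl; exact hPi _ h'
    obtain ⟨h1, h2, h3⟩ := h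
    obtain ⟨_, h2', h3'⟩ := h'
    obtain ⟨h4, h5⟩ := hdfe u v h2 hne
    obtain ⟨h4', h5'⟩ := hdfe u v' h2' hne'
    have h6 := hNS u h1
    have h7 := hdf u v h2
    have h7' := hdf u v' h2'
    apply hdinj u v v' h2 h2'
    simp only [α] at he
    split_ifs at he <;> omega
  refine ⟨P, α, hPs, hPO, hPi, hα, hαr, ?_, ?_, ?_⟩
  · intro u v v' h h' he
    have hne : v ≠ u := by rintro rfl; exact hPi _ h
    have hne' : v' ≠ u := by rintro rfl; exact hPi _ h'
    have g := hPs _ _ h
    have g' := hPs _ _ h'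
    obtain ⟨h1, h2, h3⟩ := h
    obtain ⟨h1', h2', h3'⟩ := h'
    obtain ⟨h4, h5⟩ := hdfe v u h2 hne
    obtain ⟨h4', h5'⟩ := hdfe v' u h2' hne'
    have h6 := hNS v h1
    have h7 := hdf v u h2
    have h7' := hdf v' u h2'
    apply hdinj u v v' g.2.1 g'.2.1
    have e1 := hNO v u h2
    have e2 := hNO v' u h2'
    rw [h4, h4']
    simp only [α] at he
    split_ifs at he <;> omega
  · intro u hu
    have h6 := hNS u hu
    have h8 := hp1 u
    have hsub : range (2 * k) ⊆ (cl P u).image (α u) := by
      intro j hj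
      rw [mem_range] at hj
      rw [mem_image]
      -- target difference
      have hex : ∀ δ, 1 ≤ δ → δ < N u → ∃ v, O u v ∧ df u v = δ := by
        intro δ h1 h2
        by_cases hc : pos u + δ < N u
        · obtain ⟨v, hv, hvp⟩ := p5 u (pos u + δ) hc
          refine ⟨v, hv, ?_⟩
          simp only [df, hvp]
          rw [if_pos (by omega)]
          omega
        · obtain ⟨v, hv, hvp⟩ := p5 u (pos u + δ - N u) (by simp only [N] at *; omega)
          refine ⟨v, hv, ?_⟩
          simp only [df, hvp]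
          rw [if_neg (by omega)]
          omega
      by_cases hjk : j < k
      · obtain ⟨v, hv, hvd⟩ := hex (j + 1) (by omega) (by omega)
        refine ⟨v, (mem_cl P u v).2 ⟨hu, hv, Or.inl (by omega)⟩, ?_⟩
        simp only [α, hvd]
        rw [if_pos (by omega)]
        omega
      · obtain ⟨v, hv, hvd⟩ := hex (N u - (j - k + 1)) (by omega) (by omega)
        refine ⟨v, (mem_cl P u v).2 ⟨hu, hv, Or.inr (by omega)⟩, ?_⟩
        simp only [α, hvd]
        rw [if_neg (by omega)]
        omega
    have := Finset.card_le_card hsub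
    rw [card_range] at this
    exact this.trans Finset.card_image_le
  · intro v h
    obtain ⟨h1, h2, h3⟩ := h
    apply p4 v h2
    simp only [df, p3, Nat.zero_le, if_true, Nat.sub_zero] at h3
    exact h3

end Pool.Agent.V11253.WR
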