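import Pool.Agent.V11253.WR.Tmpl
import Pool.Agent.V11253.WR.Pos
set_option autoImplicit false
namespace Pool.Agent.V11253.WR

open Finset
open Pool.Agent.MPd14d18 (mu mu_congr mu_erase mu_eq_card mu_comm)

variable {W : Type*}

/-- breadth-first layers around the class of `y0` -/
def Lev (H : SimpleGraph W) (O : W → W → Prop) (y0 : W) : ℕ → W → Prop
  | 0, v => O y0 v
  | t + 1, v => Lev H O y0 t v ∨ ∃ u, Lev H O y0 t u ∧ H.Adj u v

theorem Lev_O (H : SimpleGraph W) (O : W → W → Prop) (hO : Equivalence O) (y0 : W)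
    (hE : ∀ u u' w, O u u' → H.Adj u w → ∃ w', O w w' ∧ H.Adj u' w') :
    ∀ t v v', O v v' → Lev H O y0 t v → Lev H O y0 t v' := by
  intro t
  induction t with
  | zero => intro v v' h h'; exact hO.trans h' h
  | succ t ih =>
    intro v v' h h'
    rcases h' with h' | ⟨u, h1, h2⟩
    · exact Or.inl (ih v v' h h')
    · obtain ⟨u', h3, h4⟩ := hE v v' u h h2.symm
      exact Or.inr ⟨u', ih u u' h3 h1, h4.symm⟩

/-- the layer of a vertex -/
noncomputable def lev (H : SimpleGraph W) (O : W → W → Prop) (y0 : W) (v : W) : ℕ :=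
  sInf {t | Lev H O y0 t v}

theorem lev_O (H : SimpleGraph W) (O : W → W → Prop) (hO : Equivalence O) (y0 : W)
    (hE : ∀ u u' w, O u u' → H.Adj u w → ∃ w', O w w' ∧ H.Adj u' w') (v v' : W)
    (h : O v v') : lev H O y0 v = lev H O y0 v' := by
  unfold lev
  congr 1
  ext t
  exact ⟨Lev_O H O hO y0 hE t v v' h, Lev_O H O hO y0 hE t v' v (hO.symm h)⟩

theorem lev_ne (H : SimpleGraph W) (O : W → W → Prop) (y0 v : W) (h : lev H O y0 v ≠ 0) :
    ∃ u, H.Adj v u ∧ lev H O y0 u < lev H O y0 v := by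
  have hne : {t | Lev H O y0 t v}.Nonempty := by
    rw [Set.nonempty_iff_ne_empty]
    intro h0
    apply h
    unfold lev
    rw [h0]
    exact Nat.sInf_empty
  obtain ⟨t, ht⟩ := Nat.exists_eq_succ_of_ne_zero h
  have h1 : Lev H O y0 (t + 1) v := by
    have := Nat.sInf_mem hne
    have e : sInf {t | Lev H O y0 t v} = t + 1 := ht
    rw [e] at this
    exact this
  rcases h1 with h1 | ⟨u, h1, h2⟩
  · exfalso
    have : lev H O y0 v ≤ t := Nat.sInf_le h1
    omega
  · refine ⟨u, h2.symm, ?_⟩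
    have : lev H O y0 u ≤ t := Nat.sInf_le h1
    omega

theorem lev_zero (H : SimpleGraph W) (O : W → W → Prop) (y0 v : W) (hv : ∃ t, Lev H O y0 t v)
    (h : lev H O y0 v = 0) : O y0 v := by
  have hne : {t | Lev H O y0 t v}.Nonempty := hv
  have := Nat.sInf_mem hne
  have e : sInf {t | Lev H O y0 t v} = 0 := h
  rw [e] at this
  exact this

variable [Fintype W] [DecidableEq W]

theorem sum_MM (H : SimpleGraph W) (O P : W → W → Prop) (hO : Equivalence O) (r : ℕ) (hr : 1 ≤ r)
    (S : Finset W) (hSO : ∀ u ∈ S, ∀ v, O u v → v ∈ S) (hSA : ∀ u ∈ S, ∀ v, H.Adj u v → v ∈ S)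
    (hPO : ∀ u v, P u v → O u v) (hPi : ∀ u, ¬ P u u) (u : W) (hu : u ∈ S) :
    ∑ w ∈ S, MM H O P r u w + (cl P u).card + r = (cl H.Adj u).card + r * (cl O u).card := by
  classical
  have e1 : (cl P u).card = ∑ w ∈ S, (if P u w then 1 else 0) := by
    rw [← Finset.card_filter]
    congr 1
    ext w
    rw [mem_cl, mem_filter]
    exact ⟨fun h => ⟨hSO u hu w (hPO u w h), h⟩, fun h => h.2⟩
  have e2 : (cl H.Adj u).card = ∑ w ∈ S, (if H.Adj u w then 1 else 0) := by
    rw [← Finset.card_filter]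
    congr 1
    ext w
    rw [mem_cl, mem_filter]
    exact ⟨fun h => ⟨hSA u hu w h, h⟩, fun h => h.2⟩
  have e3 : r * (cl O u).card = ∑ w ∈ S, (if O u w then r else 0) := by
    rw [← Finset.sum_filter, Finset.sum_const, smul_eq_mul, mul_comm]
    congr 2
    ext w
    rw [mem_cl, mem_filter]
    exact ⟨fun h => ⟨hSO u hu w h, h⟩, fun h => h.2⟩
  have e4 : ∑ w ∈ S, (if w = u then r else 0) = r := by
    rw [Finset.sum_ite_eq' S u (fun _ => r), if_pos hu]
  have key : ∑ w ∈ S, MM H O P r u w + ∑ w ∈ S, (if P u w then 1 else 0) +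
      ∑ w ∈ S, (if w = u then r else 0) =
      ∑ w ∈ S, (if H.Adj u w then 1 else 0) + ∑ w ∈ S, (if O u w then r else 0) := ?_
  · rw [e1, e2, e3]
    rw [e4] at key
    exact key
  rw [← Finset.sum_add_distrib, ← Finset.sum_add_distrib, ← Finset.sum_add_distrib]
  refine Finset.sum_congr rfl fun w _ => ?_
  by_cases h : w = u
  · subst h
    simp [MM, hPi, hO.refl w]
  · have h' : u ≠ w := fun h' => h h'.symm
    rw [if_neg h, MM, if_neg h']
    by_cases h1 : P u w
    · rw [if_pos h1, if_pos (hPO u w h1)]; omega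
    · rw [if_neg h1]; omega

theorem piece (H : SimpleGraph W) (O : W → W → Prop) (hO : Equivalence O)
    (hE : ∀ u u' w, O u u' → H.Adj u w → ∃ w', O w w' ∧ H.Adj u' w')
    (r D k : ℕ) (hr : 1 ≤ r)
    (S : Finset W) (hSO : ∀ u ∈ S, ∀ v, O u v → v ∈ S) (hSA : ∀ u ∈ S, ∀ v, H.Adj u v → v ∈ S)
    (y0 : W) (hy0 : y0 ∈ S) (hSL : ∀ v ∈ S, ∃ t, Lev H O y0 t v)
    (P : W → W → Prop) (hPs : ∀ u v, P u v → P v u) (hPO : ∀ u v, P u v → O u v)
    (hPi : ∀ u, ¬ P u u) (α : W → W → ℕ) (hα : ∀ u v, P u v → α u v < 2 * k)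
    (hαr : ∀ u v v', P u v → P u v' → α u v = α u v' → v = v')
    (hαc : ∀ u v v', P v u → P v' u → α v u = α v' u → v = v')
    (hPc : ∀ u ∈ S, 2 * k ≤ (cl P u).card) (hPy : ∀ v, P y0 v → H.Adj y0 v)
    (hD : ∀ u ∈ S, (cl H.Adj u).card + r * (cl O u).card ≤ D)
    (hroot : ∃ u0, ∀ u ∈ S, O y0 u → H.Adj y0 u → ¬ P y0 u → u ≠ u0 →
      (cl H.Adj u).card + r * (cl O u).card + 1 ≤ D) :
    ∃ φ ψ, Tmpl H O r D (↑S) φ ψ := by
  classical
  have hsum := sum_MM H O P hO r hr S hSO hSA hPO hPi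
  have hMs : ∀ u w, MM H O P r u w = MM H O P r w u := by
    intro u w
    have h1 : O u w ↔ O w u := ⟨fun h => hO.symm h, fun h => hO.symm h⟩
    have h2 : P u w ↔ P w u := ⟨hPs u w, hPs w u⟩
    have h3 : u = w ↔ w = u := ⟨fun h => h.symm, fun h => h.symm⟩
    simp only [MM, h1, h2, H.adj_comm u w, h3]
  have hM0 : ∀ u, MM H O P r u u = 0 := fun u => by simp [MM]
  have hL : (Ico (2 * k) D).card = D - 2 * k := by simp
  have hkD : 2 * k ≤ D := by
    have h1 := hsum y0 hy0
    have h2 := hPc y0 hy0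
    have h3 := hD y0 hy0
    omega
  have ha : ∀ u ∈ S, ∑ w ∈ S, MM H O P r u w + r ≤ (Ico (2 * k) D).card := by
    intro u hu
    have h1 := hsum u hu
    have h2 := hPc u hu
    have h3 := hD u hu
    omega
  have hMr : ∀ u x, MM H O P r u x ≤ r + 1 ∧ (MM H O P r u x = r + 1 → O u x ∧ H.Adj u x ∧
      ¬ P u x) := by
    intro u x
    unfold MM
    by_cases h0 : u = x
    · rw [if_pos h0]; exact ⟨by omega, fun h => by omega⟩
    · rw [if_neg h0]
      by_cases h1 : H.Adj u x
      · by_cases h2 : O u x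
        · by_cases h3 : P u x
          · rw [if_pos h1, if_pos h2, if_pos h3]
            exact ⟨by omega, fun h => by omega⟩
          · rw [if_pos h1, if_pos h2, if_neg h3]
            exact ⟨by omega, fun _ => ⟨h2, h1, h3⟩⟩
        · have h3 : ¬ P u x := fun h => h2 (hPO _ _ h)
          rw [if_pos h1, if_neg h2, if_neg h3]
          exact ⟨by omega, fun h => by omega⟩
      · rw [if_neg h1]
        have h4 : (if O u x then r else 0) ≤ r := by split_ifs <;> omega
        exact ⟨by omega, fun h => by omega⟩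
  obtain ⟨m, hm, hmu⟩ := rooted S (MM H O P r) hMs hM0 (Ico (2 * k) D) r (lev H O y0) y0 hy0
    (Nat.le_zero.1 (Nat.sInf_le (hO.refl y0 : Lev H O y0 0 y0))) ha
    (fun u _ x _ => (hMr u x).1)
    (fun u _ x _ h => lev_O H O hO y0 hE u x ((hMr u x).2 h).1)
    (by
      intro u hu h
      obtain ⟨w, hw, hwl⟩ := lev_ne H O y0 u h
      refine ⟨w, hSA u hu w hw, hwl, ?_⟩
      have h1 : ¬ O u w := by
        intro h'
        have := lev_O H O hO y0 hE u w h'
        omega
      have h2 : ¬ P u w := fun h' => h1 (hPO _ _ h')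
      rw [MM, if_neg hw.ne, if_pos hw, if_neg h1, if_neg h2]
      omega)
    (by
      intro u hu h hne
      have h1 := lev_zero H O y0 u (hSL u hu) h
      rw [hMs, MM, if_neg (fun h => hne h.symm), if_pos h1]
      by_cases h2 : P y0 u
      · rw [if_pos h2, if_pos (hPy u h2)]; omega
      · rw [if_neg h2]; omega)
    (by
      obtain ⟨u0, hu0⟩ := hroot
      refine ⟨u0, fun u hu h hne => ?_⟩
      obtain ⟨h1, h2, h3⟩ := (hMr u y0).2 h
      have h4 := hu0 u hu (hO.symm h1) h2.symm (fun h => h3 (hPs _ _ h)) hne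
      have h5 := hsum u hu
      have h6 := hPc u hu
      omega)
  refine tmpl_of H O hO r D k hr S hSO hSA P hPs hPO hPi α (fun u _ v h => hα u v h)
    (fun u _ v v' => hαr u v v') (fun u _ v v' => hαc u v v') hkD m hm ?_ ?_
  · intro u hu w hw huw
    rw [hmu u w huw, if_pos ⟨hu, hw⟩]
  · intro u hu
    have h1 := miss_add (Ico (2 * k) D) m u
    rw [← mu_eq_card] at h1
    have h2 : ∑ w ∈ univ.erase u, mu (Ico (2 * k) D) m u w = ∑ w ∈ S, MM H O P r u w := by
      have h3 : ∑ w ∈ univ.erase u, mu (Ico (2 * k) D) m u w =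
          ∑ w ∈ univ.erase u, (if w ∈ S then MM H O P r u w else 0) := by
        refine Finset.sum_congr rfl fun w hw => ?_
        rw [hmu u w (Finset.ne_of_mem_erase hw).symm]
        by_cases hw' : w ∈ S
        · rw [if_pos ⟨hu, hw'⟩, if_pos hw']
        · rw [if_neg (fun h => hw' h.2), if_neg hw']
      have h4 : ∑ w ∈ univ.erase u, (if w ∈ S then MM H O P r u w else 0) =
          ∑ w, (if w ∈ S then MM H O P r u w else 0) := by
        rw [← Finset.add_sum_erase univ (fun w => if w ∈ S then MM H O P r u w else 0)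
          (mem_univ u)]
        simp [hM0]
      rw [h3, h4, ← Finset.sum_filter]
      refine Finset.sum_congr ?_ fun _ _ => rfl
      ext w
      simp
    have h5 := ha u hu
    omega

end Pool.Agent.V11253.WR
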