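import Pool.Agent.V11253.WR.Build
set_option autoImplicit false
namespace Pool.Agent.V11253.WR

open Finset
open Pool.Agent.MPd14d18 (mu mu_congr mu_erase mu_eq_card mu_comm)

/-- the `j`-th element of a finite set of naturals -/
noncomputable def el (s : Finset ℕ) (j : ℕ) : ℕ := s.toList.getD j 0

theorem el_mem (s : Finset ℕ) (j : ℕ) (h : j < s.card) : el s j ∈ s := by
  have h' : j < s.toList.length := by rw [Finset.length_toList]; exact h
  unfold el
  rw [List.getD_eq_getElem _ _ h', ← Finset.mem_toList]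
  exact List.getElem_mem h'

theorem el_inj (s : Finset ℕ) (i j : ℕ) (hi : i < s.card) (hj : j < s.card)
    (h : el s i = el s j) : i = j := by
  have hi' : i < s.toList.length := by rw [Finset.length_toList]; exact hi
  have hj' : j < s.toList.length := by rw [Finset.length_toList]; exact hj
  unfold el at h
  rw [List.getD_eq_getElem _ _ hi', List.getD_eq_getElem _ _ hj'] at h
  exact (s.nodup_toList.getElem_inj_iff).1 h

/-- `ψ c` read along rows or along columns -/
def ori {W : Type*} (ψ : ℕ → W → W → ℕ) (c : ℕ) (b : Bool) (u v : W) : ℕ :=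
  if b then ψ c u v else ψ c v u

/-- The colour template for the straight edges (`φ`) and the crossing edges (`ψ`). -/
structure Tmpl {W : Type*} (H : SimpleGraph W) (O : W → W → Prop) (r D : ℕ) (S : Set W)
    (φ : W → W → ℕ) (ψ : ℕ → W → W → ℕ) : Prop where
  flt : ∀ u ∈ S, ∀ v, H.Adj u v → φ u v < D
  fsymm : ∀ u ∈ S, ∀ v, H.Adj u v → φ u v = φ v u
  finj : ∀ u ∈ S, ∀ v v', H.Adj u v → H.Adj u v' → φ u v = φ u v' → v = v'
  plt : ∀ u ∈ S, ∀ v, O u v → ∀ c < r, ψ c u v < D
  cross : ∀ u ∈ S, ∀ v v', O u v → O u v' → ∀ c < r, ∀ c' < r, ∀ b b' : Bool,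
    (c = c' → b = b') → ori ψ c b u v = ori ψ c' b' u v' → c = c' ∧ v = v'
  mix : ∀ u ∈ S, ∀ w v, H.Adj u w → O u v → ∀ c < r, ∀ b : Bool, φ u w ≠ ori ψ c b u v

variable {W : Type*} [Fintype W] [DecidableEq W]

open Classical in
/-- the multiplicities of the symmetric multigraph -/
noncomputable def MM (H : SimpleGraph W) (O P : W → W → Prop) (r : ℕ) (u w : W) : ℕ :=
  if u = w then 0 else
    (if H.Adj u w then 1 else 0) + (if O u w then r else 0) - (if P u w then 1 else 0)

theorem tmpl_of (H : SimpleGraph W) (O : W → W → Prop) (hO : Equivalence O) (r D k : ℕ)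
    (hr : 1 ≤ r)
    (S : Finset W) (hSO : ∀ u ∈ S, ∀ v, O u v → v ∈ S) (hSA : ∀ u ∈ S, ∀ v, H.Adj u v → v ∈ S)
    (P : W → W → Prop) (hPs : ∀ u v, P u v → P v u) (hPO : ∀ u v, P u v → O u v)
    (hPi : ∀ u, ¬ P u u) (α : W → W → ℕ) (hα : ∀ u ∈ S, ∀ v, P u v → α u v < 2 * k)
    (hαr : ∀ u ∈ S, ∀ v v', P u v → P u v' → α u v = α u v' → v = v')
    (hαc : ∀ u ∈ S, ∀ v v', P v u → P v' u → α v u = α v' u → v = v')
    (hkD : 2 * k ≤ D)
    (m : ℕ → W → W) (hm : ∀ c v, m c (m c v) = v)
    (hmu : ∀ u ∈ S, ∀ w ∈ S, u ≠ w → mu (Ico (2 * k) D) m u w = MM H O P r u w)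
    (hmiss : ∀ u ∈ S, r ≤ mu (Ico (2 * k) D) m u u) :
    ∃ φ ψ, Tmpl H O r D (↑S) φ ψ := by
  classical
  set L := Ico (2 * k) D with hL
  let C : W → W → Finset ℕ := fun u v => L.filter (fun c => m c u = v)
  have hCc : ∀ u v, (C u v).card = mu L m u v := fun u v => (mu_eq_card L m u v).symm
  have hCs : ∀ u v, C u v = C v u := by
    intro u v
    simp only [C]
    apply Finset.filter_congr
    intro c _
    constructor
    · intro h; rw [← h, hm]
    · intro h; rw [← h, hm]
  have hCm : ∀ u v x, x ∈ C u v → m x u = v := by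
    intro u v x hx
    exact (mem_filter.1 hx).2
  have hCL : ∀ u v x, x ∈ C u v → 2 * k ≤ x ∧ x < D := by
    intro u v x hx
    have := (mem_filter.1 hx).1
    rw [hL, mem_Ico] at this
    exact this
  let a : W → W → ℕ := fun u v => if H.Adj u v then 1 else 0
  let p : W → W → ℕ := fun u v => if P u v then 1 else 0
  have has : ∀ u v, a u v = a v u := by
    intro u v; simp only [a, H.adj_comm]
  have hps : ∀ u v, p u v = p v u := by
    intro u v
    have : P u v ↔ P v u := ⟨hPs u v, hPs v u⟩
    simp only [p, this]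
  let sl : ℕ → W → W → ℕ := fun c u v => c + a u v - p u v
  have hsl : ∀ c u v, sl c u v = sl c v u := by
    intro c u v; simp only [sl, has u v, hps u v]
  let φ : W → W → ℕ := fun u v => el (C u v) 0
  let ψ : ℕ → W → W → ℕ := fun c u v => if c = 0 ∧ P u v then α u v else el (C u v) (sl c u v)
  have hfm : ∀ u ∈ S, ∀ v, H.Adj u v → φ u v ∈ C u v ∧ 0 < (C u v).card := by
    intro u hu v huv
    have hv := hSA u hu v huv
    have h0 : 0 < (C u v).card := by
      rw [hCc, hmu u hu v hv huv.ne, MM, if_neg huv.ne, if_pos huv]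
      by_cases h1 : P u v
      · rw [if_pos h1, if_pos (hPO _ _ h1)]; omega
      · rw [if_neg h1]; omega
    exact ⟨el_mem _ _ h0, h0⟩
  have hslot : ∀ u ∈ S, ∀ v, O u v → ∀ c < r, ¬ (c = 0 ∧ P u v) → sl c u v < (C u v).card := by
    intro u hu v huv c hc hn
    have hv := hSO u hu v huv
    by_cases h : u = v
    · subst h
      have h1 := hmiss u hu
      rw [hCc]
      simp only [sl, a, p, H.irrefl, hPi, if_false]
      omega
    · rw [hCc, hmu u hu v hv h, MM, if_neg h, if_pos huv]
      simp only [sl, a, p]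
      by_cases h1 : P u v
      · have : c ≠ 0 := fun h => hn ⟨h, h1⟩
        rw [if_pos h1]
        split_ifs <;> omega
      · rw [if_neg h1]
        split_ifs <;> omega
  -- value of a read entry
  have hval : ∀ u ∈ S, ∀ v, O u v → ∀ c < r, ∀ b : Bool, ¬ (c = 0 ∧ P u v) →
      ori ψ c b u v = el (C u v) (sl c u v) := by
    intro u hu v huv c hc b hn
    have hn' : ¬ (c = 0 ∧ P v u) := fun h => hn ⟨h.1, hPs _ _ h.2⟩
    unfold ori
    cases b
    · simp only [ψ, if_neg hn', Bool.false_eq_true, if_false]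
      rw [hCs v u, hsl c v u]
    · simp only [ψ, if_neg hn, if_true]
  have hval2 : ∀ u ∈ S, ∀ v, P u v → ∀ b : Bool,
      ori ψ 0 b u v = if b then α u v else α v u := by
    intro u hu v huv b
    unfold ori
    cases b
    · simp [ψ, hPs _ _ huv]
    · simp [ψ, huv]
  refine ⟨φ, ψ, ?_, ?_, ?_, ?_, ?_, ?_⟩
  · intro u hu v huv
    exact (hCL u v _ (hfm u hu v huv).1).2
  · intro u hu v huv
    simp only [φ, hCs u v]
  · intro u hu v v' huv huv' h
    have h1 := hCm u v _ (hfm u hu v huv).1
    have h2 := hCm u v' _ (hfm u hu v' huv').1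
    rw [← h1, ← h2, h]
  · intro u hu v huv c hc
    by_cases hn : c = 0 ∧ P u v
    · simp only [ψ, if_pos hn]
      have := hα u hu v hn.2
      omega
    · simp only [ψ, if_neg hn]
      exact (hCL u v _ (el_mem _ _ (hslot u hu v huv c hc hn))).2
  · intro u hu v v' huv huv' c hc c' hc' b b' hbb heq
    have hv := hSO u hu v huv
    have hv' := hSO u hu v' huv'
    by_cases hn : c = 0 ∧ P u v
    · by_cases hn' : c' = 0 ∧ P u v'
      · obtain ⟨rfl, h1⟩ := hn
        obtain ⟨rfl, h2⟩ := hn'
        refine ⟨rfl, ?_⟩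
        have hb := hbb rfl
        subst hb
        rw [hval2 u hu v h1, hval2 u hu v' h2] at heq
        cases b
        · simp only [Bool.false_eq_true, if_false] at heq
          exact hαc u hu v v' (hPs _ _ h1) (hPs _ _ h2) heq
        · simp only [if_true] at heq
          exact hαr u hu v v' h1 h2 heq
      · exfalso
        obtain ⟨rfl, h1⟩ := hn
        rw [hval2 u hu v h1, hval u hu v' huv' c' hc' b' hn'] at heq
        have h3 := hCL u v' _ (el_mem _ _ (hslot u hu v' huv' c' hc' hn'))
        have h4 := hα u hu v h1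
        have h5 := hα v hv u (hPs _ _ h1)
        rw [← heq] at h3
        split_ifs at h3 <;> omega
    · by_cases hn' : c' = 0 ∧ P u v'
      · exfalso
        obtain ⟨rfl, h1⟩ := hn'
        rw [hval2 u hu v' h1, hval u hu v huv c hc b hn] at heq
        have h3 := hCL u v _ (el_mem _ _ (hslot u hu v huv c hc hn))
        have h4 := hα u hu v' h1
        have h5 := hα v' hv' u (hPs _ _ h1)
        rw [heq] at h3
        split_ifs at h3 <;> omega
      · rw [hval u hu v huv c hc b hn, hval u hu v' huv' c' hc' b' hn'] at heq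
        have s1 := hslot u hu v huv c hc hn
        have s2 := hslot u hu v' huv' c' hc' hn'
        have h1 := hCm u v _ (el_mem _ _ s1)
        have h2 := hCm u v' _ (el_mem _ _ s2)
        have hvv : v = v' := by rw [← h1, ← h2, heq]
        subst hvv
        refine ⟨?_, rfl⟩
        have h3 := el_inj _ _ _ s1 s2 heq
        simp only [sl] at h3
        have h4 : p u v ≤ c := by
          simp only [p]
          by_cases h5 : P u v
          · have : c ≠ 0 := fun h => hn ⟨h, h5⟩
            rw [if_pos h5]; omega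
          · rw [if_neg h5]; omega
        have h4' : p u v ≤ c' := by
          simp only [p]
          by_cases h5 : P u v
          · have : c' ≠ 0 := fun h => hn' ⟨h, h5⟩
            rw [if_pos h5]; omega
          · rw [if_neg h5]; omega
        omega
  · intro u hu w v huw huv c hc b heq
    have hv := hSO u hu v huv
    obtain ⟨hf1, hf2⟩ := hfm u hu w huw
    by_cases hn : c = 0 ∧ P u v
    · obtain ⟨rfl, h1⟩ := hn
      rw [hval2 u hu v h1] at heq
      have h3 := hCL u w _ hf1
      have h4 := hα u hu v h1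
      have h5 := hα v hv u (hPs _ _ h1)
      rw [heq] at h3
      split_ifs at h3 <;> omega
    · rw [hval u hu v huv c hc b hn] at heq
      have s1 := hslot u hu v huv c hc hn
      have h1 := hCm u v _ (el_mem _ _ s1)
      have h2 := hCm u w _ hf1
      have hvw : v = w := by rw [← h1, ← h2, heq]
      subst hvw
      have h3 := el_inj _ _ _ hf2 s1 heq
      simp only [sl, a, p, if_pos huw] at h3
      by_cases h5 : P u v
      · have : c ≠ 0 := fun h => hn ⟨h, h5⟩
        rw [if_pos h5] at h3; omega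
      · rw [if_neg h5] at h3; omega

end Pool.Agent.V11253.WR
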